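import Mathlib

/-!
# Networks of lazy transpositions: basic operators

A network on `α` is a list of triples `(a, b, p)`; the head of the list acts first.
-/

set_option linter.unusedSectionVars false
set_option linter.unusedSimpArgs false

namespace Pool.Agent.Lib.MP_2f8515_co

open Equiv

/-- a network of lazy transpositions -/
abbrev Net (α : Type) := List (α × α × ℝ)

/-- all entries are genuine lazy transpositions -/
def Valid {α : Type} (L : Net α) : Prop := ∀ e ∈ L, e.1 ≠ e.2.1 ∧ 0 ≤ e.2.2 ∧ e.2.2 ≤ 1

section ops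
variable {α : Type} [DecidableEq α]

/-- expectation of `g (σ x)` -/
def op1 : Net α → (α → ℝ) → α → ℝ
  | [], g => g
  | e :: L, g => fun x => (1 - e.2.2) * op1 L g x + e.2.2 * op1 L g (swap e.1 e.2.1 x)

/-- expectation of `f (σ x) (σ y)` -/
def op2 : Net α → (α → α → ℝ) → α → α → ℝ
  | [], f => f
  | e :: L, f => fun x y => (1 - e.2.2) * op2 L f x y
      + e.2.2 * op2 L f (swap e.1 e.2.1 x) (swap e.1 e.2.1 y)

@[simp] lemma op1_nil (g : α → ℝ) : op1 [] g = g := rfl
@[simp] lemma op2_nil (f : α → α → ℝ) : op2 [] f = f := rfl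

lemma op1_cons (e : α × α × ℝ) (L : Net α) (g : α → ℝ) (x : α) :
    op1 (e :: L) g x = (1 - e.2.2) * op1 L g x + e.2.2 * op1 L g (swap e.1 e.2.1 x) := rfl

lemma op2_cons (e : α × α × ℝ) (L : Net α) (f : α → α → ℝ) (x y : α) :
    op2 (e :: L) f x y = (1 - e.2.2) * op2 L f x y
      + e.2.2 * op2 L f (swap e.1 e.2.1 x) (swap e.1 e.2.1 y) := rfl

lemma op1_append (L M : Net α) (g : α → ℝ) : op1 (L ++ M) g = op1 L (op1 M g) := by
  induction L with
  | nil => rfl
  | cons e L ih => funext x; simp only [List.cons_append, op1_cons, ih]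

lemma op2_append (L M : Net α) (f : α → α → ℝ) : op2 (L ++ M) f = op2 L (op2 M f) := by
  induction L with
  | nil => rfl
  | cons e L ih => funext x y; simp only [List.cons_append, op2_cons, ih]

lemma op1_const (L : Net α) (c : ℝ) (x : α) : op1 L (fun _ => c) x = c := by
  induction L generalizing x with
  | nil => rfl
  | cons e L ih => simp only [op1_cons, ih]; ring

lemma op2_const (L : Net α) (c : ℝ) (x y : α) : op2 L (fun _ _ => c) x y = c := by
  induction L generalizing x y with
  | nil => rfl
  | cons e L ih => simp only [op2_cons, ih]; ring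

lemma op1_add (L : Net α) (g h : α → ℝ) (x : α) :
    op1 L (fun x => g x + h x) x = op1 L g x + op1 L h x := by
  induction L generalizing x with
  | nil => rfl
  | cons e L ih => simp only [op1_cons, ih]; ring

lemma op1_smul (L : Net α) (c : ℝ) (g : α → ℝ) (x : α) :
    op1 L (fun x => c * g x) x = c * op1 L g x := by
  induction L generalizing x with
  | nil => rfl
  | cons e L ih => simp only [op1_cons, ih]; ring

lemma op2_add (L : Net α) (f g : α → α → ℝ) (x y : α) :
    op2 L (fun x y => f x y + g x y) x y = op2 L f x y + op2 L g x y := by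
  induction L generalizing x y with
  | nil => rfl
  | cons e L ih => simp only [op2_cons, ih]; ring

lemma op2_smul (L : Net α) (c : ℝ) (f : α → α → ℝ) (x y : α) :
    op2 L (fun x y => c * f x y) x y = c * op2 L f x y := by
  induction L generalizing x y with
  | nil => rfl
  | cons e L ih => simp only [op2_cons, ih]; ring

/-- `op2` as a linear map -/
def op2L (L : Net α) : (α → α → ℝ) →ₗ[ℝ] (α → α → ℝ) where
  toFun := op2 L
  map_add' f g := by funext x y; exact op2_add L f g x y
  map_smul' c f := by funext x y; exact op2_smul L c f x y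

@[simp] lemma op2L_apply (L : Net α) (f : α → α → ℝ) : op2L L f = op2 L f := rfl

lemma op2_sum {ι : Type} (s : Finset ι) (L : Net α) (f : ι → α → α → ℝ) (x y : α) :
    op2 L (fun x y => ∑ i ∈ s, f i x y) x y = ∑ i ∈ s, op2 L (f i) x y := by
  have h : (fun x y => ∑ i ∈ s, f i x y) = ∑ i ∈ s, f i := by
    funext x y; simp [Finset.sum_apply]
  rw [h, ← op2L_apply, map_sum]
  simp [Finset.sum_apply]

lemma op2_congr_off (L : Net α) {f g : α → α → ℝ} (h : ∀ x y, x ≠ y → f x y = g x y)
    {x y : α} (hxy : x ≠ y) : op2 L f x y = op2 L g x y := by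
  induction L generalizing x y with
  | nil => exact h x y hxy
  | cons e L ih =>
    have h2 : swap e.1 e.2.1 x ≠ swap e.1 e.2.1 y := fun h => hxy ((swap e.1 e.2.1).injective h)
    simp only [op2_cons, ih hxy, ih h2]

lemma op2_fst (L : Net α) (g : α → ℝ) (x y : α) : op2 L (fun x _ => g x) x y = op1 L g x := by
  induction L generalizing x y with
  | nil => rfl
  | cons e L ih => simp only [op2_cons, op1_cons, ih]

lemma op2_snd (L : Net α) (g : α → ℝ) (x y : α) : op2 L (fun _ y => g y) x y = op1 L g y := by
  induction L generalizing x y with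
  | nil => rfl
  | cons e L ih => simp only [op2_cons, op1_cons, ih]

/-- strong 2-shuffle, operator form -/
def Strong2 (L : Net α) : Prop :=
  ∀ (f : α → α → ℝ) (x y x' y' : α), x ≠ y → x' ≠ y' → op2 L f x y = op2 L f x' y'

/-- strong 1-shuffle, operator form -/
def Strong1 (L : Net α) : Prop := ∀ (g : α → ℝ) (x x' : α), op1 L g x = op1 L g x'

lemma Strong2.strong1 {L : Net α} (h : Strong2 L) : Strong1 L := by
  intro g x x'
  by_cases hx : x = x'
  · rw [hx]
  · rw [← op2_fst L g x x', ← op2_fst L g x' x]
    exact h _ _ _ _ _ hx (Ne.symm hx)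

end ops

section respect
variable {α : Type} [DecidableEq α] {I : Type} (π : α → I)

/-- every entry stays in a fibre of `π` -/
def Resp (L : Net α) : Prop := ∀ e ∈ L, π e.1 = π e.2.1

lemma Resp.cons {e : α × α × ℝ} {L : Net α} (h : Resp π (e :: L)) :
    π e.1 = π e.2.1 ∧ Resp π L :=
  ⟨h e (by simp), fun e' he' => h e' (by simp [he'])⟩

lemma resp_swap {a b : α} (h : π a = π b) (x : α) : π (swap a b x) = π x := by
  by_cases hxa : x = a
  · subst hxa; rw [swap_apply_left]; exact h.symm
  · by_cases hxb : x = b
    · subst hxb; rw [swap_apply_right]; exact h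
    · rw [swap_apply_of_ne_of_ne hxa hxb]

lemma swap_fix {a b : α} (h : π a = π b) {x : α} (hx : π x ≠ π a) : swap a b x = x := by
  apply swap_apply_of_ne_of_ne
  · rintro rfl; exact hx rfl
  · rintro rfl; exact hx h.symm

/-- pairs in different fibres see independent copies -/
lemma op2_indep (L : Net α) (hL : Resp π L) (f : α → α → ℝ) {x y : α} (hxy : π x ≠ π y) :
    op2 L f x y = op1 L (fun x' => op1 L (fun y' => f x' y') y) x := by
  induction L generalizing x y with
  | nil => rfl
  | cons e L ih =>
    obtain ⟨he, hL'⟩ := Resp.cons π hL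
    have ih' := fun {x y : α} (hxy : π x ≠ π y) => ih hL' hxy
    rw [op2_cons, op1_cons]
    have h2 : π (swap e.1 e.2.1 x) ≠ π (swap e.1 e.2.1 y) := by
      rw [resp_swap π he, resp_swap π he]; exact hxy
    rw [ih' hxy, ih' h2]
    by_cases hx : π x = π e.1
    · have hy : π y ≠ π e.1 := fun h => hxy (hx.trans h.symm)
      have hys : swap e.1 e.2.1 y = y := swap_fix π he hy
      have : (fun x' => op1 (e :: L) (fun y' => f x' y') y)
          = (fun x' => op1 L (fun y' => f x' y') y) := by
        funext x'
        rw [op1_cons, hys]; ring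
      rw [this, hys]
    · have hxs : swap e.1 e.2.1 x = x := swap_fix π he hx
      rw [hxs]
      have : (fun x' => op1 (e :: L) (fun y' => f x' y') y)
          = (fun x' => (1 - e.2.2) * op1 L (fun y' => f x' y') y
            + e.2.2 * op1 L (fun y' => f x' y') (swap e.1 e.2.1 y)) := by
        funext x'
        rw [op1_cons]
      rw [this, op1_add, op1_smul, op1_smul]
      ring

variable [DecidableEq I]

/-- the part of a network in a fibre -/
def fib (L : Net α) (i : I) : Net α := L.filter (fun e => decide (π e.1 = i))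

lemma op1_fib (L : Net α) (hL : Resp π L) (g : α → ℝ) (x : α) :
    op1 L g x = op1 (fib π L (π x)) g x := by
  induction L generalizing x with
  | nil => rfl
  | cons e L ih =>
    obtain ⟨he, hL'⟩ := Resp.cons π hL
    rw [op1_cons, ih hL' x, ih hL' (swap e.1 e.2.1 x), resp_swap π he]
    by_cases hx : π e.1 = π x
    · have : fib π (e :: L) (π x) = e :: fib π L (π x) := by
        simp [fib, List.filter_cons, hx]
      rw [this, op1_cons]
    · have : fib π (e :: L) (π x) = fib π L (π x) := by
        simp [fib, List.filter_cons, hx]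
      rw [this, swap_fix π he (Ne.symm hx)]; ring

lemma op2_fib (L : Net α) (hL : Resp π L) (f : α → α → ℝ) (x y : α) (hxy : π x = π y) :
    op2 L f x y = op2 (fib π L (π x)) f x y := by
  induction L generalizing x y with
  | nil => rfl
  | cons e L ih =>
    obtain ⟨he, hL'⟩ := Resp.cons π hL
    rw [op2_cons, ih hL' x y hxy, ih hL' (swap e.1 e.2.1 x) (swap e.1 e.2.1 y)
      (by rw [resp_swap π he, resp_swap π he]; exact hxy), resp_swap π he]
    by_cases hx : π e.1 = π x
    · have : fib π (e :: L) (π x) = e :: fib π L (π x) := by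
        simp [fib, List.filter_cons, hx]
      rw [this, op2_cons]
    · have : fib π (e :: L) (π x) = fib π L (π x) := by
        simp [fib, List.filter_cons, hx]
      rw [this, swap_fix π he (Ne.symm hx), swap_fix π he (by rw [← hxy]; exact Ne.symm hx)]; ring

end respect

section lift
variable {α β : Type} [DecidableEq α] [DecidableEq β]

/-- image of a network under a map -/
def mapNet (ι : β → α) (M : Net β) : Net α := M.map (fun e => (ι e.1, ι e.2.1, e.2.2))

@[simp] lemma mapNet_nil (ι : β → α) : mapNet ι [] = [] := rfl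
@[simp] lemma mapNet_cons (ι : β → α) (e : β × β × ℝ) (M : Net β) :
    mapNet ι (e :: M) = (ι e.1, ι e.2.1, e.2.2) :: mapNet ι M := rfl

lemma mapNet_length (ι : β → α) (M : Net β) : (mapNet ι M).length = M.length := by
  simp [mapNet]

lemma mapNet_valid {ι : β → α} (hι : Function.Injective ι) {M : Net β} (hM : Valid M) :
    Valid (mapNet ι M) := by
  intro e he
  simp only [mapNet, List.mem_map] at he
  obtain ⟨e', he', rfl⟩ := he
  obtain ⟨h1, h2⟩ := hM e' he'
  exact ⟨fun h => h1 (hι h), h2⟩

lemma op1_mapNet {ι : β → α} (hι : Function.Injective ι) (M : Net β) (g : α → ℝ) (b : β) :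
    op1 (mapNet ι M) g (ι b) = op1 M (fun b => g (ι b)) b := by
  induction M generalizing b with
  | nil => rfl
  | cons e M ih =>
    rw [mapNet_cons, op1_cons, op1_cons, ← hι.map_swap, ih, ih]

lemma op2_mapNet {ι : β → α} (hι : Function.Injective ι) (M : Net β) (f : α → α → ℝ) (b b' : β) :
    op2 (mapNet ι M) f (ι b) (ι b') = op2 M (fun b b' => f (ι b) (ι b')) b b' := by
  induction M generalizing b b' with
  | nil => rfl
  | cons e M ih =>
    rw [mapNet_cons, op2_cons, op2_cons, ← hι.map_swap, ← hι.map_swap, ih, ih]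

end lift

section cost

open Classical in
/-- number of random entries -/
noncomputable def cost {α : Type} (L : Net α) : ℕ :=
  (L.filter (fun e => decide (e.2.2 ≠ 0 ∧ e.2.2 ≠ 1))).length

variable {α β : Type}

lemma cost_le_length (L : Net α) : cost L ≤ L.length := List.length_filter_le _ _

@[simp] lemma cost_nil : cost ([] : Net α) = 0 := rfl

lemma cost_append (L M : Net α) : cost (L ++ M) = cost L + cost M := by
  simp [cost, List.filter_append]

lemma cost_cons_det {e : α × α × ℝ} (L : Net α) (h : e.2.2 = 0 ∨ e.2.2 = 1) :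
    cost (e :: L) = cost L := by
  unfold cost
  rw [List.filter_cons_of_neg]
  simp only [ne_eq, decide_eq_true_eq, not_and_or, not_not]
  exact h

lemma cost_cons_rand {e : α × α × ℝ} (L : Net α) (h : e.2.2 ≠ 0 ∧ e.2.2 ≠ 1) :
    cost (e :: L) = cost L + 1 := by
  unfold cost
  rw [List.filter_cons_of_pos]
  · simp
  · simpa using h

lemma cost_mapNet (ι : β → α) (M : Net β) : cost (mapNet ι M) = cost M := by
  unfold cost mapNet
  rw [List.filter_map, List.length_map]
  rfl

lemma Valid.append {L M : Net α} (hL : Valid L) (hM : Valid M) : Valid (L ++ M) := by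
  intro e he
  rcases List.mem_append.1 he with h | h
  · exact hL e h
  · exact hM e h

lemma valid_nil : Valid ([] : Net α) := by intro e he; simp at he

lemma Valid.cons {e : α × α × ℝ} {L : Net α} (h : Valid (e :: L)) :
    (e.1 ≠ e.2.1 ∧ 0 ≤ e.2.2 ∧ e.2.2 ≤ 1) ∧ Valid L :=
  ⟨h e (by simp), fun e' he' => h e' (by simp [he'])⟩

lemma valid_cons {e : α × α × ℝ} {L : Net α} (h : e.1 ≠ e.2.1 ∧ 0 ≤ e.2.2 ∧ e.2.2 ≤ 1)
    (hL : Valid L) : Valid (e :: L) := by
  intro e' he'
  rcases List.mem_cons.1 he' with h' | h'
  · rw [h']; exact h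
  · exact hL e' h'

variable [DecidableEq α]

/-- deterministic entries can be removed -/
lemma elim_det (L : Net α) (hL : Valid L) : ∃ (L' : Net α) (ρ : Perm α), Valid L' ∧
    L'.length ≤ cost L ∧ ∀ f x y, op2 L f x y = op2 L' f (ρ x) (ρ y) := by
  induction L with
  | nil => exact ⟨[], 1, valid_nil, le_refl _, fun f x y => rfl⟩
  | cons e L ih =>
    obtain ⟨he, hL1⟩ := hL.cons
    obtain ⟨L', ρ, hV, hlen, h⟩ := ih hL1
    by_cases h0 : e.2.2 = 0
    · refine ⟨L', ρ, hV, ?_, ?_⟩
      · rw [cost_cons_det L (Or.inl h0)]; exact hlen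
      · intro f x y
        rw [op2_cons, h0, h]; ring
    · by_cases h1 : e.2.2 = 1
      · refine ⟨L', ρ * swap e.1 e.2.1, hV, ?_, ?_⟩
        · rw [cost_cons_det L (Or.inr h1)]; exact hlen
        · intro f x y
          rw [op2_cons, h1, h, h]
          simp only [Perm.coe_mul, Function.comp_apply]
          ring
      · refine ⟨(ρ e.1, ρ e.2.1, e.2.2) :: L', ρ, ?_, ?_, ?_⟩
        · exact valid_cons ⟨fun h => he.1 (ρ.injective h), he.2⟩ hV
        · rw [cost_cons_rand L ⟨h0, h1⟩, List.length_cons]; omega
        · intro f x y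
          rw [op2_cons, op2_cons, h, h, ρ.injective.map_swap, ρ.injective.map_swap]

end cost

/-- there is a strong 2-shuffle network of length at most `c` -/
def HasStrong (α : Type) [DecidableEq α] (c : ℕ) : Prop :=
  ∃ L : Net α, Valid L ∧ L.length ≤ c ∧ Strong2 L

lemma HasStrong.of_cost {α : Type} [DecidableEq α] {c : ℕ} (L : Net α) (hL : Valid L)
    (hc : cost L ≤ c) (hS : Strong2 L) : HasStrong α c := by
  obtain ⟨L', ρ, hV, hlen, h⟩ := elim_det L hL
  refine ⟨L', hV, hlen.trans hc, ?_⟩
  intro f x y x' y' hxy hxy'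
  have h1 := hS f (ρ.symm x) (ρ.symm y) (ρ.symm x') (ρ.symm y')
    (fun h => hxy (ρ.symm.injective h)) (fun h => hxy' (ρ.symm.injective h))
  rw [h, h] at h1
  simpa using h1

lemma HasStrong.transport {α β : Type} [DecidableEq α] [DecidableEq β] (e : α ≃ β) {c : ℕ}
    (h : HasStrong α c) : HasStrong β c := by
  obtain ⟨L, hV, hlen, hS⟩ := h
  refine ⟨mapNet e L, mapNet_valid e.injective hV, by rw [mapNet_length]; exact hlen, ?_⟩
  intro f x y x' y' hxy hxy'
  have h1 := hS (fun a b => f (e a) (e b)) (e.symm x) (e.symm y) (e.symm x') (e.symm y')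
    (fun h => hxy (e.symm.injective h)) (fun h => hxy' (e.symm.injective h))
  rw [← op2_mapNet e.injective, ← op2_mapNet e.injective] at h1
  simpa using h1

lemma HasStrong.mono {α : Type} [DecidableEq α] {c d : ℕ} (h : HasStrong α c) (hcd : c ≤ d) :
    HasStrong α d := by
  obtain ⟨L, hV, hlen, hS⟩ := h
  exact ⟨L, hV, hlen.trans hcd, hS⟩

section par
variable {α β I : Type} [DecidableEq α] [DecidableEq β] [DecidableEq I] [Fintype I]

/-- parallel composition of networks on the fibres -/
noncomputable def par (ι : I → β → α) (M : I → Net β) : Net α :=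
  (Finset.univ : Finset I).toList.flatMap (fun i => mapNet (ι i) (M i))

variable {π : α → I} {ι : I → β → α}

lemma par_resp (hπ : ∀ i b, π (ι i b) = i) (M : I → Net β) : Resp π (par ι M) := by
  intro e he
  simp only [par, List.mem_flatMap, mapNet, List.mem_map] at he
  obtain ⟨i, -, e', -, rfl⟩ := he
  simp [hπ]

lemma par_valid (hι : ∀ i, Function.Injective (ι i)) {M : I → Net β} (hM : ∀ i, Valid (M i)) :
    Valid (par ι M) := by
  intro e he
  simp only [par, List.mem_flatMap] at he
  obtain ⟨i, -, he⟩ := he
  exact mapNet_valid (hι i) (hM i) e he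

lemma par_length (M : I → Net β) : (par ι M).length = ∑ i, (M i).length := by
  simp only [par, List.length_flatMap, mapNet_length]
  rw [Finset.sum_map_toList]

lemma par_cost (M : I → Net β) : cost (par ι M) = ∑ i, cost (M i) := by
  have : ∀ l : List I, cost (l.flatMap (fun i => mapNet (ι i) (M i)))
      = (l.map (fun i => cost (M i))).sum := by
    intro l
    induction l with
    | nil => rfl
    | cons i l ih => rw [List.flatMap_cons, cost_append, ih, cost_mapNet]; simp
  rw [par, this, Finset.sum_map_toList]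

lemma fib_par (hπ : ∀ i b, π (ι i b) = i) (M : I → Net β) (k : I) :
    fib π (par ι M) k = mapNet (ι k) (M k) := by
  have key : ∀ l : List I, l.Nodup → fib π (l.flatMap (fun i => mapNet (ι i) (M i))) k
      = if k ∈ l then mapNet (ι k) (M k) else [] := by
    intro l hl
    induction l with
    | nil => simp [fib]
    | cons i l ih =>
      rw [List.nodup_cons] at hl
      have h1 : fib π (mapNet (ι i) (M i)) k = if k = i then mapNet (ι k) (M k) else [] := by
        split_ifs with h
        · subst h
          unfold fib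
          rw [List.filter_eq_self]
          intro e he
          simp only [mapNet, List.mem_map] at he
          obtain ⟨e', -, rfl⟩ := he
          simp [hπ]
        · unfold fib
          rw [List.filter_eq_nil_iff]
          intro e he
          simp only [mapNet, List.mem_map] at he
          obtain ⟨e', -, rfl⟩ := he
          simp [hπ, Ne.symm h]
      have h2 : fib π ((i :: l).flatMap (fun i => mapNet (ι i) (M i))) k
          = fib π (mapNet (ι i) (M i)) k
            ++ fib π (l.flatMap (fun i => mapNet (ι i) (M i))) k := by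
        simp [fib, List.filter_append]
      rw [h2, h1, ih hl.2]
      by_cases hki : k = i
      · subst hki
        simp [hl.1]
      · simp [hki]
  rw [par, key _ (Finset.nodup_toList _)]
  simp

lemma op1_par (hι : ∀ i, Function.Injective (ι i)) (hπ : ∀ i b, π (ι i b) = i)
    (M : I → Net β) (g : α → ℝ) (i : I) (b : β) :
    op1 (par ι M) g (ι i b) = op1 (M i) (fun b => g (ι i b)) b := by
  rw [op1_fib π _ (par_resp hπ M), hπ, fib_par hπ, op1_mapNet (hι i)]

lemma op2_par_same (hι : ∀ i, Function.Injective (ι i)) (hπ : ∀ i b, π (ι i b) = i)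
    (M : I → Net β) (f : α → α → ℝ) (i : I) (b b' : β) :
    op2 (par ι M) f (ι i b) (ι i b') = op2 (M i) (fun b b' => f (ι i b) (ι i b')) b b' := by
  rw [op2_fib π _ (par_resp hπ M) _ _ _ (by rw [hπ, hπ]), hπ, fib_par hπ, op2_mapNet (hι i)]

lemma op2_par_diff (hι : ∀ i, Function.Injective (ι i)) (hπ : ∀ i b, π (ι i b) = i)
    (M : I → Net β) (f : α → α → ℝ) {i j : I} (hij : i ≠ j) (b b' : β) :
    op2 (par ι M) f (ι i b) (ι j b')
      = op1 (M i) (fun a => op1 (M j) (fun a' => f (ι i a) (ι j a')) b') b := by
  rw [op2_indep π _ (par_resp hπ M) _ (by rw [hπ, hπ]; exact hij), op1_par hι hπ]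
  congr 1
  funext a
  rw [op1_par hι hπ]

end par

end Pool.Agent.Lib.MP_2f8515_co
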