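import Pool.Agent.Lib.MP_2f8515_co.Glue

/-!
# Strong 2-shuffles on `n` points with `O(n log n)` lazy transpositions
-/

namespace Pool.Agent.Lib.MP_2f8515_co

open Equiv

theorem strong_general : ∃ C : ℕ, ∀ n : ℕ, 2 ≤ n → HasStrong (Fin n) (C * n * Nat.log 2 n) := by
  obtain ⟨C, hC⟩ := strong_pow
  refine ⟨6 * C + 2, fun n hn => ?_⟩
  obtain ⟨k, hk⟩ : ∃ k, k = Nat.log 2 n := ⟨_, rfl⟩
  have hk1 : 1 ≤ k := by rw [hk]; exact Nat.log_pos (by norm_num) hn
  have hlo : 2 ^ k ≤ n := by rw [hk]; exact Nat.pow_log_le_self 2 (by omega)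
  have hhi : n < 2 ^ (k + 1) := by rw [hk]; exact Nat.lt_pow_succ_log_self (by norm_num) n
  rw [pow_succ] at hhi
  rw [← hk]
  have hpos : 1 ≤ k * 2 ^ k := Nat.mul_pos hk1 (Nat.one_le_two_pow)
  have hfin : 6 * (C * k * 2 ^ k) + 2 ≤ (6 * C + 2) * n * k := by
    have h1 : k * 2 ^ k ≤ n * k := by rw [mul_comm]; exact Nat.mul_le_mul_right _ hlo
    nlinarith
  by_cases hr : n = 2 ^ k
  · have e : Fin (2 ^ k) ≃ Fin n := finCongr hr.symm
    exact ((hC k hk1).transport e).mono (by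
      refine le_trans ?_ hfin
      omega)
  · obtain ⟨r, hrn⟩ : ∃ r, n = 2 ^ k + r := ⟨n - 2 ^ k, by omega⟩
    have hr1 : 1 ≤ r := by omega
    have hr2 : r ≤ 2 ^ k := by omega
    have hcard : Fintype.card (Fin r ⊕ Fin (2 ^ k - r)) = 2 ^ k := by
      rw [Fintype.card_sum, Fintype.card_fin, Fintype.card_fin]; omega
    have e1 : Fin (2 ^ k) ≃ Fin r ⊕ Fin (2 ^ k - r) := Fintype.equivOfCardEq (by
      rw [hcard, Fintype.card_fin])
    have hN : 2 ≤ Fintype.card (Fin r ⊕ Fin (2 ^ k - r)) := by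
      rw [hcard]
      calc 2 = 2 ^ 1 := by norm_num
        _ ≤ 2 ^ k := Nat.pow_le_pow_right (by norm_num) hk1
    have h := glue hr1 hN ((hC k hk1).transport e1)
    have e2 : AT r (Fin (2 ^ k - r)) ≃ Fin n := Fintype.equivOfCardEq (by
      rw [Fintype.card_sum, hcard, Fintype.card_fin, Fintype.card_fin]; omega)
    exact (h.transport e2).mono hfin

end Pool.Agent.Lib.MP_2f8515_co
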