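import Pool.Agent.Lib.MP_2f8515_co.Defs
import Pool.Agent.Lib.MP_2f8515_co.Gen

/-!
# From the product measure to the operators
-/

namespace Pool.Agent.Lib.MP_2f8515_co

open Equiv MeasureTheory

/-- expectation over `σ = T₁ T₂ ⋯ T_l` -/
noncomputable def EE {n : ℕ} : Net (Fin n) → (Perm (Fin n) → ℝ) → ℝ
  | [], F => F 1
  | e :: L, F => (1 - e.2.2) * EE L F + e.2.2 * EE L (fun σ => F (swap e.1 e.2.1 * σ))

lemma EE_op2 {n : ℕ} (L : Net (Fin n)) (f : Fin n → Fin n → ℝ) (x y : Fin n) :
    EE L (fun σ => f (σ x) (σ y)) = op2 L.reverse f x y := by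
  induction L generalizing f with
  | nil => rfl
  | cons e L ih =>
    rw [List.reverse_cons, op2_append]
    have h3 := ih (fun u v => f (swap e.1 e.2.1 u) (swap e.1 e.2.1 v))
    have h2 : op2 [e] f = fun u v => (1 - e.2.2) * f u v
        + e.2.2 * f (swap e.1 e.2.1 u) (swap e.1 e.2.1 v) := by
      funext u v; rfl
    rw [h2, op2_add, op2_smul, op2_smul, EE, ih f, ← h3]
    rfl

/-- the triple of a lazy transposition -/
def trip {n : ℕ} (T : LazyTransposition n) : Fin n × Fin n × ℝ := (T.a, T.b, T.p)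

instance {n : ℕ} (T : LazyTransposition n) : IsProbabilityMeasure T.law := by
  constructor
  have h1 : 0 ≤ T.p := T.p_mem.1
  have h2 : 0 ≤ 1 - T.p := by linarith [T.p_mem.2]
  simp only [LazyTransposition.law, Measure.coe_add, Measure.coe_smul, Pi.add_apply,
    Pi.smul_apply, measure_univ, smul_eq_mul, mul_one]
  rw [← ENNReal.ofReal_add h1 h2]
  simp

instance (n : ℕ) : DiscreteMeasurableSpace (Perm (Fin n)) := ⟨fun _ => trivial⟩

open Classical in
/-- the weight of a permutation -/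
noncomputable def wt {n : ℕ} (T : LazyTransposition n) (τ : Perm (Fin n)) : ℝ :=
  (if swap T.a T.b = τ then T.p else 0) + (if 1 = τ then 1 - T.p else 0)

lemma law_singleton {n : ℕ} (T : LazyTransposition n) (τ : Perm (Fin n)) :
    (T.law {τ}) = ENNReal.ofReal (wt T τ) := by
  classical
  have h1 : 0 ≤ T.p := T.p_mem.1
  have h2 : 0 ≤ 1 - T.p := by linarith [T.p_mem.2]
  simp only [LazyTransposition.law, Measure.coe_add, Measure.coe_smul, Pi.add_apply,
    Pi.smul_apply, smul_eq_mul]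
  rw [Measure.dirac_apply' _ (MeasurableSet.of_discrete),
    Measure.dirac_apply' _ (MeasurableSet.of_discrete), wt, ENNReal.ofReal_add]
  · congr 1
    · by_cases h : swap T.a T.b = τ
      · simp [h]
      · simp [h]
    · by_cases h : 1 = τ
      · simp [h]
      · simp [h]
  · split_ifs <;> [exact h1; exact le_refl _]
  · split_ifs <;> [exact h2; exact le_refl _]

lemma wt_nonneg {n : ℕ} (T : LazyTransposition n) (τ : Perm (Fin n)) : 0 ≤ wt T τ := by
  have h1 : 0 ≤ T.p := T.p_mem.1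
  have h2 : 0 ≤ 1 - T.p := by linarith [T.p_mem.2]
  unfold wt
  apply add_nonneg
  · split_ifs <;> [exact h1; exact le_refl _]
  · split_ifs <;> [exact h2; exact le_refl _]

lemma sum_wt {n : ℕ} (T : LazyTransposition n) (H : Perm (Fin n) → ℝ) :
    ∑ τ, wt T τ * H τ = T.p * H (swap T.a T.b) + (1 - T.p) * H 1 := by
  classical
  unfold wt
  simp only [add_mul, Finset.sum_add_distrib, ite_mul, zero_mul]
  rw [Finset.sum_ite_eq, Finset.sum_ite_eq]
  simp

lemma sum_EE {n l : ℕ} (T : Fin l → LazyTransposition n) (F : Perm (Fin n) → ℝ) :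
    ∑ ω : Fin l → Perm (Fin n), (∏ i, wt (T i) (ω i)) * F ((List.ofFn ω).prod)
      = EE (List.ofFn fun i => trip (T i)) F := by
  induction l generalizing F with
  | zero => simp [EE]
  | succ l ih =>
    rw [← Equiv.sum_comp (Fin.consEquiv (fun _ : Fin (l + 1) => Perm (Fin n))),
      Fintype.sum_prod_type]
    have h1 : ∀ (τ : Perm (Fin n)), ∑ ω' : Fin l → Perm (Fin n),
        (∏ i, wt (T i) ((Fin.consEquiv (fun _ : Fin (l + 1) => Perm (Fin n))) (τ, ω') i))
          * F ((List.ofFn ((Fin.consEquiv (fun _ : Fin (l + 1) => Perm (Fin n))) (τ, ω'))).prod)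
        = wt (T 0) τ * EE (List.ofFn fun i => trip (T i.succ)) (fun σ => F (τ * σ)) := by
      intro τ
      rw [← ih (fun i => T i.succ) (fun σ => F (τ * σ)), Finset.mul_sum]
      refine Finset.sum_congr rfl fun ω' _ => ?_
      rw [Fin.prod_univ_succ, List.ofFn_succ, List.prod_cons]
      simp only [Fin.consEquiv_apply, Fin.cons_zero, Fin.cons_succ]
      ring
    rw [Finset.sum_congr rfl (fun τ _ => h1 τ), sum_wt, List.ofFn_succ, EE]
    simp only [one_mul, trip]
    ring

open Classical in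
lemma prob_EE {n l : ℕ} (T : Fin l → LazyTransposition n) (P : Perm (Fin n) → Prop) :
    (Measure.pi fun i => (T i).law).real {ω | P ((List.ofFn ω).prod)}
      = EE (List.ofFn fun i => trip (T i)) (fun σ => if P σ then 1 else 0) := by
  rw [← sum_EE]
  have h1 : ({ω : Fin l → Perm (Fin n) | P ((List.ofFn ω).prod)})
      = ((Finset.univ.filter (fun ω : Fin l → Perm (Fin n) => P ((List.ofFn ω).prod)) :
        Finset (Fin l → Perm (Fin n))) : Set (Fin l → Perm (Fin n))) := by
    ext ω; simp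
  rw [h1, ← sum_measureReal_singleton, Finset.sum_filter]
  refine Finset.sum_congr rfl fun ω _ => ?_
  split_ifs with h
  · rw [mul_one, Measure.real, Measure.pi_singleton]
    simp only [law_singleton]
    rw [ENNReal.toReal_prod]
    refine Finset.prod_congr rfl fun i _ => ?_
    rw [ENNReal.toReal_ofReal (wt_nonneg _ _)]
  · simp

/-- delta function on pairs -/
noncomputable def dlt {n : ℕ} (y₁ y₂ : Fin n) : Fin n → Fin n → ℝ :=
  fun u v => if u = y₁ ∧ v = y₂ then 1 else 0

lemma prob_op2 {n l : ℕ} (T : Fin l → LazyTransposition n) (x₁ x₂ y₁ y₂ : Fin n) :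
    (Measure.pi fun i => (T i).law).real
      {ω | (List.ofFn ω).prod x₁ = y₁ ∧ (List.ofFn ω).prod x₂ = y₂}
      = op2 (List.ofFn fun i => trip (T i)).reverse (dlt y₁ y₂) x₁ x₂ := by
  rw [← EE_op2, prob_EE T (fun σ => σ x₁ = y₁ ∧ σ x₂ = y₂)]
  congr 1
  funext σ
  unfold dlt
  split_ifs <;> rfl

lemma isStrong_iff {n l : ℕ} (T : Fin l → LazyTransposition n) :
    IsStrongTwoShuffle T ↔ ∀ x₁ x₂ y₁ y₂ : Fin n, x₁ ≠ x₂ → y₁ ≠ y₂ →
      op2 (List.ofFn fun i => trip (T i)).reverse (dlt y₁ y₂) x₁ x₂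
        = 1 / ((n : ℝ) * ((n : ℝ) - 1)) := by
  unfold IsStrongTwoShuffle
  constructor
  · intro h x₁ x₂ y₁ y₂ hx hy
    rw [← prob_op2]; exact h _ _ _ _ hx hy
  · intro h x₁ x₂ y₁ y₂ hx hy
    rw [prob_op2]; exact h _ _ _ _ hx hy

lemma valid_trip {n l : ℕ} (T : Fin l → LazyTransposition n) :
    Valid (List.ofFn fun i => trip (T i)) := by
  intro e he
  rw [List.mem_ofFn] at he
  obtain ⟨i, rfl⟩ := he
  exact ⟨(T i).a_ne_b, (T i).p_mem.1, (T i).p_mem.2⟩

lemma exists_shuffle {n c : ℕ} (h : HasStrong (Fin n) c) :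
    ∃ l ≤ c, ∃ T : Fin l → LazyTransposition n, IsStrongTwoShuffle T := by
  obtain ⟨L, hV, hlen, hS⟩ := h
  have hV' : ∀ i : Fin L.reverse.length, (L.reverse.get i).1 ≠ (L.reverse.get i).2.1 ∧
      0 ≤ (L.reverse.get i).2.2 ∧ (L.reverse.get i).2.2 ≤ 1 := by
    intro i
    apply hV
    have := List.get_mem L.reverse i
    rwa [List.mem_reverse] at this
  refine ⟨L.reverse.length, by rw [List.length_reverse]; exact hlen,
    fun i => ⟨(L.reverse.get i).1, (L.reverse.get i).2.1, (L.reverse.get i).2.2, (hV' i).1,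
      (hV' i).2⟩, ?_⟩
  rw [isStrong_iff]
  intro x₁ x₂ y₁ y₂ hx hy
  have h1 : (List.ofFn fun i : Fin L.reverse.length => trip (n := n)
      ⟨(L.reverse.get i).1, (L.reverse.get i).2.1, (L.reverse.get i).2.2, (hV' i).1,
      (hV' i).2⟩) = L.reverse := by
    have : (fun i : Fin L.reverse.length => trip (n := n)
      ⟨(L.reverse.get i).1, (L.reverse.get i).2.1, (L.reverse.get i).2.2, (hV' i).1,
      (hV' i).2⟩) = L.reverse.get := by
      funext i; rfl
    rw [this, List.ofFn_get]
  rw [h1, List.reverse_reverse, strong2_eq hS _ hx]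
  have h2 : ∑ u, ∑ v, off (dlt y₁ y₂) u v = 1 := by
    rw [Finset.sum_eq_single y₁, Finset.sum_eq_single y₂]
    · simp [off, dlt, hy]
    · intro v _ hv
      simp [off, dlt, hv]
    · intro h; exact absurd (Finset.mem_univ _) h
    · intro u _ hu
      apply Finset.sum_eq_zero
      intro v _
      simp [off, dlt, hu]
    · intro h; exact absurd (Finset.mem_univ _) h
  rw [h2, Fintype.card_fin]

end Pool.Agent.Lib.MP_2f8515_co
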