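import Mathlib

/-!
# Definitions for the strong `(2, n)`-shuffle problem
-/

namespace Pool.Agent.Lib.MP_2f8515_co

open MeasureTheory

/-- A lazy transposition on `Fin n` with parameters `(a, b, p)`: `a ≠ b` and `p ∈ [0, 1]`. -/
structure LazyTransposition (n : ℕ) where
  /-- first point -/
  a : Fin n
  /-- second point -/
  b : Fin n
  /-- probability of the swap -/
  p : ℝ
  /-- the two points are distinct -/
  a_ne_b : a ≠ b
  /-- `p` is a probability -/
  p_mem : p ∈ Set.Icc (0 : ℝ) 1

/-- `Perm (Fin n)` is a finite set, every subset is an event. -/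
instance permMeasurableSpace (n : ℕ) : MeasurableSpace (Equiv.Perm (Fin n)) := ⊤

/-- The law of the lazy transposition `T`: mass `p` at the transposition `(a b)`, mass `1 - p` at
the identity. -/
noncomputable def LazyTransposition.law {n : ℕ} (T : LazyTransposition n) :
    Measure (Equiv.Perm (Fin n)) :=
  ENNReal.ofReal T.p • Measure.dirac (Equiv.swap T.a T.b)
    + ENNReal.ofReal (1 - T.p) • Measure.dirac 1

/-- `T` is a strong `(2, n)`-shuffle: if `ω 0, …, ω (l - 1)` are independent with laws
`(T i).law` (that is, `ω` has the product law) and `σ = ω 0 * ω 1 * ⋯ * ω (l - 1)`, then every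
ordered pair of distinct points is sent to every ordered pair of distinct points with probability
`1 / (n (n - 1))`. -/
def IsStrongTwoShuffle {n l : ℕ} (T : Fin l → LazyTransposition n) : Prop :=
  ∀ x₁ x₂ y₁ y₂ : Fin n, x₁ ≠ x₂ → y₁ ≠ y₂ →
    (Measure.pi fun i => (T i).law).real
      {ω : Fin l → Equiv.Perm (Fin n) |
        (List.ofFn ω).prod x₁ = y₁ ∧ (List.ofFn ω).prod x₂ = y₂}
      = 1 / ((n : ℝ) * ((n : ℝ) - 1))

/-- The minimum length of a strong `(2, n)`-shuffle. -/
noncomputable def U2all (n : ℕ) : ℕ :=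
  sInf {l : ℕ | ∃ T : Fin l → LazyTransposition n, IsStrongTwoShuffle T}

end Pool.Agent.Lib.MP_2f8515_co
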