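import Pool.Agent.Lib.MP_2f8515_co.Sums

/-!
# Gluing: from `N` points to `N + r` points
-/

set_option linter.unusedSectionVars false

namespace Pool.Agent.Lib.MP_2f8515_co

open Equiv

section lift2
variable {α β : Type} [DecidableEq α] [DecidableEq β]

lemma swap_out {ι : β → α} {c : α} (hc : ∀ b, ι b ≠ c) (a b : β) : swap (ι a) (ι b) c = c :=
  swap_apply_of_ne_of_ne (Ne.symm (hc a)) (Ne.symm (hc b))

lemma op1_map_out {ι : β → α} (M : Net β) (g : α → ℝ) {c : α} (hc : ∀ b, ι b ≠ c) :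
    op1 (mapNet ι M) g c = g c := by
  induction M with
  | nil => rfl
  | cons e M ih =>
    rw [mapNet_cons, op1_cons, swap_out hc, ih]; ring

lemma op2_map_in_out {ι : β → α} (hι : Function.Injective ι) (M : Net β) (f : α → α → ℝ) {c : α}
    (hc : ∀ b, ι b ≠ c) (a : β) :
    op2 (mapNet ι M) f (ι a) c = op1 M (fun a => f (ι a) c) a := by
  induction M generalizing a with
  | nil => rfl
  | cons e M ih =>
    rw [mapNet_cons, op2_cons, op1_cons, swap_out hc, ← hι.map_swap, ih, ih]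

lemma op2_map_out_in {ι : β → α} (hι : Function.Injective ι) (M : Net β) (f : α → α → ℝ) {c : α}
    (hc : ∀ b, ι b ≠ c) (a : β) :
    op2 (mapNet ι M) f c (ι a) = op1 M (fun a => f c (ι a)) a := by
  induction M generalizing a with
  | nil => rfl
  | cons e M ih =>
    rw [mapNet_cons, op2_cons, op1_cons, swap_out hc, ← hι.map_swap, ih, ih]

lemma op2_map_out_out {ι : β → α} (M : Net β) (f : α → α → ℝ) {c d : α}
    (hc : ∀ b, ι b ≠ c) (hd : ∀ b, ι b ≠ d) : op2 (mapNet ι M) f c d = f c d := by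
  induction M with
  | nil => rfl
  | cons e M ih =>
    rw [mapNet_cons, op2_cons, swap_out hc, swap_out hd, ih]; ring

end lift2

section glue
variable {r : ℕ} {S : Type} [Fintype S] [DecidableEq S]

/-- the points: `(Fin r ⊕ S)` is the block `P`, the last `Fin r` is the block `R` -/
abbrev AT (r : ℕ) (S : Type) : Type := (Fin r ⊕ S) ⊕ Fin r

/-- indicator of `R` -/
def tR (x : AT r S) : ℝ := Sum.elim (fun _ => 0) (fun _ => 1) x

@[simp] lemma tR_inl (a : Fin r ⊕ S) : tR (Sum.inl a : AT r S) = 0 := rfl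
@[simp] lemma tR_inr (c : Fin r) : tR (Sum.inr c : AT r S) = 1 := rfl

/-- exchange `R` with a part of `P` -/
def flipFun : AT r S → AT r S
  | Sum.inl (Sum.inl i) => Sum.inr i
  | Sum.inl (Sum.inr s) => Sum.inl (Sum.inr s)
  | Sum.inr i => Sum.inl (Sum.inl i)

lemma flipFun_invol (x : AT r S) : flipFun (flipFun x) = x := by
  rcases x with (_ | _) | _ <;> rfl

/-- exchange `R` with a part of `P` -/
def flipP : Perm (AT r S) := ⟨flipFun, flipFun, flipFun_invol, flipFun_invol⟩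

@[simp] lemma flipP_ll (i : Fin r) : flipP (Sum.inl (Sum.inl i) : AT r S) = Sum.inr i := rfl
@[simp] lemma flipP_lr (s : S) : flipP (Sum.inl (Sum.inr s) : AT r S) = Sum.inl (Sum.inr s) := rfl
@[simp] lemma flipP_r (i : Fin r) : flipP (Sum.inr i : AT r S) = Sum.inl (Sum.inl i) := rfl

/-- mixing network on the block `P` -/
def TL (M : Net (Fin r ⊕ S)) : Net (AT r S) := mapNet Sum.inl M

variable {M : Net (Fin r ⊕ S)}

lemma inl_inj' : Function.Injective (Sum.inl : Fin r ⊕ S → AT r S) := Sum.inl_injective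

lemma TL1_inl (hM : Strong2 M) (g : AT r S → ℝ) (a : Fin r ⊕ S) :
    op1 (TL M) g (Sum.inl a) = (∑ b, g (Sum.inl b)) / (Fintype.card (Fin r ⊕ S)) := by
  rw [TL, op1_mapNet inl_inj', strong1_eq hM.strong1]

lemma TL1_inr (g : AT r S → ℝ) (c : Fin r) : op1 (TL M) g (Sum.inr c) = g (Sum.inr c) :=
  op1_map_out _ _ (fun b => by simp)

lemma TL2_ll (hM : Strong2 M) (f : AT r S → AT r S → ℝ) {a b : Fin r ⊕ S} (hab : a ≠ b) :
    op2 (TL M) f (Sum.inl a) (Sum.inl b)
      = (∑ u, ∑ v, off (fun u v => f (Sum.inl u) (Sum.inl v)) u v)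
        / ((Fintype.card (Fin r ⊕ S)) * ((Fintype.card (Fin r ⊕ S)) - 1)) := by
  rw [TL, op2_mapNet inl_inj', strong2_eq hM _ hab]

lemma TL2_lr (hM : Strong2 M) (f : AT r S → AT r S → ℝ) (a : Fin r ⊕ S) (c : Fin r) :
    op2 (TL M) f (Sum.inl a) (Sum.inr c)
      = (∑ b, f (Sum.inl b) (Sum.inr c)) / (Fintype.card (Fin r ⊕ S)) := by
  rw [TL, op2_map_in_out inl_inj' _ _ (fun b => by simp), strong1_eq hM.strong1]

lemma TL2_rl (hM : Strong2 M) (f : AT r S → AT r S → ℝ) (a : Fin r ⊕ S) (c : Fin r) :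
    op2 (TL M) f (Sum.inr c) (Sum.inl a)
      = (∑ b, f (Sum.inr c) (Sum.inl b)) / (Fintype.card (Fin r ⊕ S)) := by
  rw [TL, op2_map_out_in inl_inj' _ _ (fun b => by simp), strong1_eq hM.strong1]

lemma TL2_rr (f : AT r S → AT r S → ℝ) (c d : Fin r) :
    op2 (TL M) f (Sum.inr c) (Sum.inr d) = f (Sum.inr c) (Sum.inr d) :=
  op2_map_out_out _ _ (fun b => by simp) (fun b => by simp)

/-- the symmetrising network -/
lemma exists_U (hMV : Valid M) : ∃ U : Net (AT r S), Valid U ∧ cost U ≤ 2 * M.length ∧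
    (∀ f x y, op2 U f x y
      = op2 (TL M) (fun x y => op2 (TL M) f (flipP x) (flipP y)) x y) ∧
    (∀ g x, op1 U g x = op1 (TL M) (fun x => op1 (TL M) g (flipP x)) x) := by
  obtain ⟨D, hDV, hDc, hD2, hD1⟩ := exists_det (flipP : Perm (AT r S))
  have hTV : Valid (TL M) := mapNet_valid inl_inj' hMV
  have hTc : cost (TL M) ≤ M.length := by
    rw [TL, cost_mapNet]; exact cost_le_length _
  refine ⟨TL M ++ (D ++ TL M), hTV.append (hDV.append hTV), ?_, ?_, ?_⟩
  · rw [cost_append, cost_append, hDc]; omega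
  · intro f x y
    rw [op2_append, op2_append]
    congr 1
    funext x y
    rw [hD2]
  · intro g x
    rw [op1_append, op1_append]
    congr 1
    funext x
    rw [hD1]

/-- first order functional -/
noncomputable def Lam1 (h : AT r S → ℝ) : ℝ :=
  (∑ i, h (Sum.inr i)) - r * ((∑ a, h (Sum.inl a)) / (Fintype.card (Fin r ⊕ S)))

/-- second order functional -/
noncomputable def Lam2 (h : AT r S → AT r S → ℝ) : ℝ :=
  r * (r - 1) * ((∑ u, ∑ v, off (fun u v => h (Sum.inl u) (Sum.inl v)) u v)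
        / ((Fintype.card (Fin r ⊕ S)) * ((Fintype.card (Fin r ⊕ S)) - 1)))
    - (r - 1) * ((∑ c, (∑ a, h (Sum.inl a) (Sum.inr c)) / (Fintype.card (Fin r ⊕ S)))
        + (∑ c, (∑ a, h (Sum.inr c) (Sum.inl a)) / (Fintype.card (Fin r ⊕ S))))
    + ∑ i, ∑ j, off (fun i j => h (Sum.inr i) (Sum.inr j)) i j

lemma U1_type (hM : Strong2 M) (hN : 0 < Fintype.card (Fin r ⊕ S)) {U : Net (AT r S)}
    (hU1 : ∀ g x, op1 U g x = op1 (TL M) (fun x => op1 (TL M) g (flipP x)) x)
    (h : AT r S → ℝ) : ∃ a b : ℝ, (∀ x, op1 U h x = a + b * tR x) ∧ (Lam1 h = 0 → b = 0) := by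
  set N : ℝ := (Fintype.card (Fin r ⊕ S) : ℝ) with hNdef
  have hNS : N = r + Fintype.card S := by
    rw [hNdef, Fintype.card_sum, Fintype.card_fin]; push_cast; ring
  have hN0 : N ≠ 0 := by
    rw [hNdef]; positivity
  set A : ℝ := (∑ a, h (Sum.inl a)) / N with hA
  set P : ℝ := ((∑ i, h (Sum.inr i)) + Fintype.card S * A) / N with hP
  refine ⟨P, A - P, ?_, ?_⟩
  · rintro (a | c)
    · rw [hU1, TL1_inl hM, tR_inl, Fintype.sum_sum_type]
      simp only [flipP_ll, flipP_lr, TL1_inr, TL1_inl hM]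
      rw [Finset.sum_const, Finset.card_univ, nsmul_eq_mul, ← hNdef, ← hA]
      rw [hP]; ring
    · rw [hU1, TL1_inr, tR_inr, flipP_r, TL1_inl hM, ← hNdef, ← hA]; ring
  · intro h0
    unfold Lam1 at h0
    rw [← hNdef, ← hA] at h0
    have h1 : ∑ i, h (Sum.inr i) = r * A := by linarith
    rw [hP, h1, ← add_mul, ← hNS]
    field_simp
    ring

lemma U2_type (hM : Strong2 M) (hN : 2 ≤ Fintype.card (Fin r ⊕ S)) {U : Net (AT r S)}
    (hU2 : ∀ f x y, op2 U f x y
      = op2 (TL M) (fun x y => op2 (TL M) f (flipP x) (flipP y)) x y)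
    (h : AT r S → AT r S → ℝ) :
    ∃ a b c d : ℝ, (∀ x y, x ≠ y → op2 U h x y = a + b * tR x + c * tR y + d * (tR x * tR y)) ∧
      (Lam2 h = 0 → d = 0) := by
  set N : ℝ := (Fintype.card (Fin r ⊕ S) : ℝ) with hNdef
  have hNS : N = r + Fintype.card S := by
    rw [hNdef, Fintype.card_sum, Fintype.card_fin]; push_cast; ring
  have hN2 : (2 : ℝ) ≤ N := by rw [hNdef]; exact_mod_cast hN
  have hN0 : N ≠ 0 := by linarith
  have hN1 : N - 1 ≠ 0 := by linarith
  set σ : ℝ := (Fintype.card S : ℝ) with hσ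
  set A : ℝ := (∑ u, ∑ v, off (fun u v => h (Sum.inl u) (Sum.inl v)) u v) / (N * (N - 1)) with hA
  set B : Fin r → ℝ := fun c => (∑ a, h (Sum.inl a) (Sum.inr c)) / N with hB
  set C : Fin r → ℝ := fun c => (∑ a, h (Sum.inr c) (Sum.inl a)) / N with hC
  set H : ℝ := ∑ i, ∑ j, off (fun i j => h (Sum.inr i) (Sum.inr j)) i j with hH
  -- first pass
  have f_ll : ∀ a b : Fin r ⊕ S, a ≠ b → op2 (TL M) h (Sum.inl a) (Sum.inl b) = A := by
    intro a b hab
    rw [TL2_ll hM h hab]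
  have f_lr : ∀ (a : Fin r ⊕ S) (c : Fin r), op2 (TL M) h (Sum.inl a) (Sum.inr c) = B c := by
    intro a c
    rw [TL2_lr hM h]
  have f_rl : ∀ (a : Fin r ⊕ S) (c : Fin r), op2 (TL M) h (Sum.inr c) (Sum.inl a) = C c := by
    intro a c
    rw [TL2_rl hM h]
  have f_rr : ∀ (c d : Fin r), op2 (TL M) h (Sum.inr c) (Sum.inr d) = h (Sum.inr c) (Sum.inr d) :=
    fun c d => TL2_rr h c d
  -- second pass
  have F_rr : ∀ c d : Fin r, c ≠ d → op2 U h (Sum.inr c) (Sum.inr d) = A := by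
    intro c d hcd
    rw [hU2, TL2_rr, flipP_r, flipP_r, f_ll _ _ (by simpa using hcd)]
  have F_lr : ∀ (a : Fin r ⊕ S) (c : Fin r), op2 U h (Sum.inl a) (Sum.inr c)
      = ((∑ i, C i) + σ * A) / N := by
    intro a c
    rw [hU2, TL2_lr hM, Fintype.sum_sum_type]
    simp only [flipP_ll, flipP_lr, flipP_r, f_rl]
    congr 2
    rw [Finset.sum_congr rfl (fun s _ => f_ll (Sum.inr s) (Sum.inl c) (by simp)),
      Finset.sum_const, Finset.card_univ, nsmul_eq_mul]
  have F_rl : ∀ (a : Fin r ⊕ S) (c : Fin r), op2 U h (Sum.inr c) (Sum.inl a)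
      = ((∑ i, B i) + σ * A) / N := by
    intro a c
    rw [hU2, TL2_rl hM, Fintype.sum_sum_type]
    simp only [flipP_ll, flipP_lr, flipP_r, f_lr]
    congr 2
    rw [Finset.sum_congr rfl (fun s _ => f_ll (Sum.inl c) (Sum.inr s) (by simp)),
      Finset.sum_const, Finset.card_univ, nsmul_eq_mul]
  have F_ll : ∀ a b : Fin r ⊕ S, a ≠ b → op2 U h (Sum.inl a) (Sum.inl b)
      = (H + σ * ((∑ i, B i) + ∑ i, C i) + σ * (σ - 1) * A) / (N * (N - 1)) := by
    intro a b hab
    rw [hU2, TL2_ll hM _ hab]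
    congr 1
    rw [Fintype.sum_sum_type]
    simp only [Fintype.sum_sum_type]
    rw [Finset.sum_add_distrib, Finset.sum_add_distrib]
    have e1 : ∑ i : Fin r, ∑ j : Fin r,
        off (fun u v : Fin r ⊕ S => op2 (TL M) h (flipP (Sum.inl u)) (flipP (Sum.inl v)))
          (Sum.inl i) (Sum.inl j) = H := by
      rw [hH]
      refine Finset.sum_congr rfl fun i _ => Finset.sum_congr rfl fun j _ => ?_
      unfold off
      simp only [flipP_ll, f_rr, Sum.inl.injEq]
    have e2 : ∑ i : Fin r, ∑ s : S,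
        off (fun u v : Fin r ⊕ S => op2 (TL M) h (flipP (Sum.inl u)) (flipP (Sum.inl v)))
          (Sum.inl i) (Sum.inr s) = σ * ∑ i, C i := by
      rw [Finset.mul_sum]
      refine Finset.sum_congr rfl fun i _ => ?_
      unfold off
      simp only [flipP_ll, flipP_lr, f_rl, reduceCtorEq, if_false]
      rw [Finset.sum_const, Finset.card_univ, nsmul_eq_mul]
    have e3 : ∑ s : S, ∑ i : Fin r,
        off (fun u v : Fin r ⊕ S => op2 (TL M) h (flipP (Sum.inl u)) (flipP (Sum.inl v)))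
          (Sum.inr s) (Sum.inl i) = σ * ∑ i, B i := by
      unfold off
      simp only [flipP_ll, flipP_lr, f_lr, reduceCtorEq, if_false]
      rw [Finset.sum_const, Finset.card_univ, nsmul_eq_mul]
    have e4 : ∑ s : S, ∑ s' : S,
        off (fun u v : Fin r ⊕ S => op2 (TL M) h (flipP (Sum.inl u)) (flipP (Sum.inl v)))
          (Sum.inr s) (Sum.inr s') = σ * (σ - 1) * A := by
      have e5 : ∀ s s' : S,
          off (fun u v : Fin r ⊕ S => op2 (TL M) h (flipP (Sum.inl u)) (flipP (Sum.inl v)))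
            (Sum.inr s) (Sum.inr s') = A - if s = s' then A else 0 := by
        intro s s'
        unfold off
        simp only [flipP_lr, Sum.inr.injEq]
        split_ifs with hs
        · ring
        · rw [f_ll _ _ (by simpa using hs)]; ring
      simp only [e5, Finset.sum_sub_distrib, Finset.sum_const, Finset.card_univ, nsmul_eq_mul,
        Finset.sum_ite_eq, Finset.mem_univ, if_true]
      ring
    rw [e1, e2, e3, e4]
    ring
  set vPP : ℝ := (H + σ * ((∑ i, B i) + ∑ i, C i) + σ * (σ - 1) * A) / (N * (N - 1)) with hPP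
  set vPR : ℝ := ((∑ i, C i) + σ * A) / N with hPR
  set vRP : ℝ := ((∑ i, B i) + σ * A) / N with hRP
  refine ⟨vPP, vRP - vPP, vPR - vPP, A - vRP - vPR + vPP, ?_, ?_⟩
  · rintro (a | c) (b | d) hxy
    · rw [F_ll a b (fun e => hxy (by rw [e]))]
      simp only [tR_inl]; ring
    · rw [F_lr]; simp only [tR_inl, tR_inr]; ring
    · rw [F_rl]; simp only [tR_inl, tR_inr]; ring
    · rw [F_rr c d (fun e => hxy (by rw [e]))]
      simp only [tR_inr]; ring
  · intro h0
    unfold Lam2 at h0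
    rw [← hNdef, ← hA, ← hH] at h0
    change r * (r - 1) * A - (r - 1) * ((∑ c, B c) + (∑ c, C c)) + H = 0 at h0
    have hσ' : σ = N - r := by rw [hNS]; ring
    have key : N * (N - 1) * (A - vRP - vPR + vPP)
        = r * (r - 1) * A - (r - 1) * ((∑ c, B c) + (∑ c, C c)) + H := by
      rw [hPP, hPR, hRP, hσ']
      field_simp
      ring
    rw [h0] at key
    rcases mul_eq_zero.1 key with h1 | h1
    · rcases mul_eq_zero.1 h1 with h2 | h2
      · exact absurd h2 hN0
      · exact absurd h2 hN1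
    · exact h1

/-- indicator of `R` after `s` exchanges -/
def mm (s : ℕ) : AT r S → ℝ
  | Sum.inl (Sum.inl i) => if i.val < s then 1 else 0
  | Sum.inl (Sum.inr _) => 0
  | Sum.inr i => if i.val < s then 0 else 1

lemma mm_zero : (mm 0 : AT r S → ℝ) = tR := by
  funext x
  rcases x with (i | _) | i <;> simp [mm]

lemma mm_swap {s : ℕ} (hs : s < r) (x : AT r S) :
    mm s (swap (Sum.inl (Sum.inl ⟨s, hs⟩)) (Sum.inr ⟨s, hs⟩) x) = mm (s + 1) x := by
  rcases x with (i | c) | i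
  · by_cases hi : i = ⟨s, hs⟩
    · subst hi
      rw [swap_apply_left]; simp [mm]
    · rw [swap_apply_of_ne_of_ne (by simpa using hi) (by simp)]
      have : i.val ≠ s := fun e => hi (Fin.ext e)
      simp only [mm]
      by_cases h1 : i.val < s
      · rw [if_pos h1, if_pos (by omega)]
      · rw [if_neg h1, if_neg (by omega)]
  · rw [swap_apply_of_ne_of_ne (by simp) (by simp)]
    rfl
  · by_cases hi : i = ⟨s, hs⟩
    · subst hi
      rw [swap_apply_right]; simp [mm]
    · rw [swap_apply_of_ne_of_ne (by simp) (by simpa using hi)]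
      have : i.val ≠ s := fun e => hi (Fin.ext e)
      simp only [mm]
      by_cases h1 : i.val < s
      · rw [if_pos h1, if_pos (by omega)]
      · rw [if_neg h1, if_neg (by omega)]

lemma exists_D (s : ℕ) (hs : s ≤ r) : ∃ D : Net (AT r S), Valid D ∧ cost D = 0 ∧
    (∀ x, op1 D tR x = mm s x) ∧ (∀ x y, op2 D (fun x y => tR x * tR y) x y = mm s x * mm s y) := by
  induction s with
  | zero => exact ⟨[], valid_nil, rfl, fun x => by rw [mm_zero]; rfl, fun x y => by
      rw [mm_zero]; rfl⟩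
  | succ s ih =>
    obtain ⟨D, hV, hc, h1, h2⟩ := ih (by omega)
    refine ⟨(Sum.inl (Sum.inl ⟨s, hs⟩), Sum.inr ⟨s, hs⟩, 1) :: D, ?_, ?_, ?_, ?_⟩
    · exact valid_cons ⟨by simp, by norm_num, by norm_num⟩ hV
    · rw [cost_cons_det _ (Or.inr rfl), hc]
    · intro x
      rw [op1_cons, h1, h1, mm_swap]; ring
    · intro x y
      rw [op2_cons, h2, h2, mm_swap, mm_swap]; ring

lemma exists_Z (s : ℕ) (hs : s < r) {θ : ℝ} (hθ : 0 ≤ θ ∧ θ ≤ 1) :
    ∃ Z : Net (AT r S), Valid Z ∧ cost Z ≤ 1 ∧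
    (∀ x, op1 Z tR x = (1 - θ) * mm s x + θ * mm (s + 1) x) ∧
    (∀ x y, op2 Z (fun x y => tR x * tR y) x y = (1 - θ) * (mm s x * mm s y)
      + θ * (mm (s + 1) x * mm (s + 1) y)) := by
  obtain ⟨D, hV, hc, h1, h2⟩ := exists_D (S := S) s hs.le
  refine ⟨(Sum.inl (Sum.inl ⟨s, hs⟩), Sum.inr ⟨s, hs⟩, θ) :: D, ?_, ?_, ?_, ?_⟩
  · exact valid_cons ⟨by simp, hθ⟩ hV
  · by_cases h : θ ≠ 0 ∧ θ ≠ 1
    · rw [cost_cons_rand _ h, hc]
    · have h' : θ = 0 ∨ θ = 1 := by simpa only [not_and_or, not_not] using h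
      rw [cost_cons_det _ h', hc]; omega
  · intro x
    rw [op1_cons, h1, h1, mm_swap]
  · intro x y
    rw [op2_cons, h2, h2, mm_swap, mm_swap]

lemma sum_fin_lt (s : ℕ) (hs : s ≤ r) : ∑ i : Fin r, (if i.val < s then (1 : ℝ) else 0) = s := by
  rw [Fin.sum_univ_eq_sum_range (fun i => if i < s then (1 : ℝ) else 0) r,
    ← Finset.sum_filter]
  have : (Finset.range r).filter (fun i => i < s) = Finset.range s := by
    ext i; simp only [Finset.mem_filter, Finset.mem_range]; omega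
  rw [this]; simp

lemma sum_mm_inl (s : ℕ) (hs : s ≤ r) : ∑ a, (mm s (Sum.inl a : AT r S)) = s := by
  rw [Fintype.sum_sum_type]
  simp only [mm]
  rw [sum_fin_lt s hs]; simp

lemma sum_mm_inr (s : ℕ) (hs : s ≤ r) : ∑ i, (mm s (Sum.inr i : AT r S)) = r - s := by
  simp only [mm]
  have : ∀ i : Fin r, (if i.val < s then (0 : ℝ) else 1) = 1 - (if i.val < s then (1 : ℝ) else 0) := by
    intro i; split_ifs <;> ring
  simp only [this]
  rw [Finset.sum_sub_distrib, sum_fin_lt s hs]; simp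

lemma mm_idem (s : ℕ) (x : AT r S) : mm s x * mm s x = mm s x := by
  rcases x with (i | _) | i
  · simp only [mm]; split_ifs <;> ring
  · simp [mm]
  · simp only [mm]; split_ifs <;> ring

lemma sum_off_prod {γ : Type} [Fintype γ] [DecidableEq γ] (m : γ → ℝ) (hm : ∀ x, m x * m x = m x) :
    ∑ u, ∑ v, off (fun u v => m u * m v) u v = (∑ u, m u) * (∑ u, m u) - ∑ u, m u := by
  have h1 : ∀ u v, off (fun u v => m u * m v) u v = m u * m v - if u = v then m u * m u else 0 := by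
    intro u v
    unfold off
    split_ifs with h
    · subst h; ring
    · ring
  simp only [h1, Finset.sum_sub_distrib, Finset.sum_ite_eq, Finset.mem_univ, if_true, hm]
  rw [Finset.sum_mul_sum]

/-- value of the first-order functional -/
lemma Lam1_mm (s : ℕ) (hs : s ≤ r) :
    Lam1 (mm s : AT r S → ℝ) = (r - s) - r * (s / (Fintype.card (Fin r ⊕ S))) := by
  unfold Lam1
  rw [sum_mm_inl s hs, sum_mm_inr s hs]

lemma Lam2_mm (s : ℕ) (hs : s ≤ r) :
    Lam2 (fun x y : AT r S => mm s x * mm s y)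
      = r * (r - 1) * ((s * s - s) / ((Fintype.card (Fin r ⊕ S)) *
          ((Fintype.card (Fin r ⊕ S)) - 1)))
        - (r - 1) * (2 * (s * (r - s) / (Fintype.card (Fin r ⊕ S))))
        + ((r - s) * (r - s) - (r - s)) := by
  unfold Lam2
  have e1 : (∑ u, ∑ v, off (fun u v => mm s (Sum.inl u : AT r S) * mm s (Sum.inl v : AT r S)) u v)
      = s * s - s := by
    rw [sum_off_prod (fun u => mm s (Sum.inl u : AT r S)) (fun u => mm_idem s _),
      sum_mm_inl s hs]
  have e2 : (∑ i, ∑ j, off (fun i j => mm s (Sum.inr i : AT r S) * mm s (Sum.inr j : AT r S)) i j)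
      = (r - s) * (r - s) - (r - s) := by
    rw [sum_off_prod (fun u => mm s (Sum.inr u : AT r S)) (fun u => mm_idem s _),
      sum_mm_inr s hs]
  have e3 : (∑ c, (∑ a, mm s (Sum.inl a : AT r S) * mm s (Sum.inr c : AT r S))
      / (Fintype.card (Fin r ⊕ S) : ℝ)) = s * (r - s) / (Fintype.card (Fin r ⊕ S)) := by
    simp only [← Finset.sum_mul, sum_mm_inl s hs]
    rw [← Finset.sum_div, ← Finset.mul_sum, sum_mm_inr s hs]
  have e4 : (∑ c, (∑ a, mm s (Sum.inr c : AT r S) * mm s (Sum.inl a : AT r S))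
      / (Fintype.card (Fin r ⊕ S) : ℝ)) = s * (r - s) / (Fintype.card (Fin r ⊕ S)) := by
    simp only [← Finset.mul_sum, sum_mm_inl s hs]
    rw [← Finset.sum_div, ← Finset.sum_mul, sum_mm_inr s hs]
    ring
  rw [e1, e2, e3, e4]
  ring

lemma Lam1_lin (θ : ℝ) (g h : AT r S → ℝ) :
    Lam1 (fun x => (1 - θ) * g x + θ * h x) = (1 - θ) * Lam1 g + θ * Lam1 h := by
  unfold Lam1
  simp only [Finset.sum_add_distrib, ← Finset.mul_sum]
  ring

lemma off_lin {γ : Type} [DecidableEq γ] (θ : ℝ) (g h : γ → γ → ℝ) (u v : γ) :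
    off (fun x y => (1 - θ) * g x y + θ * h x y) u v = (1 - θ) * off g u v + θ * off h u v := by
  unfold off
  split_ifs <;> ring

lemma Lam2_lin (θ : ℝ) (g h : AT r S → AT r S → ℝ) :
    Lam2 (fun x y => (1 - θ) * g x y + θ * h x y) = (1 - θ) * Lam2 g + θ * Lam2 h := by
  unfold Lam2
  have e1 := fun u v => off_lin θ (fun u v : Fin r ⊕ S => g (Sum.inl u) (Sum.inl v))
    (fun u v => h (Sum.inl u) (Sum.inl v)) u v
  have e2 := fun u v => off_lin θ (fun u v : Fin r => g (Sum.inr u) (Sum.inr v))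
    (fun u v => h (Sum.inr u) (Sum.inr v)) u v
  simp only [e1, e2, Finset.sum_add_distrib, ← Finset.mul_sum, add_div, mul_div_assoc]
  ring

/-- discrete intermediate value -/
lemma exists_cross (Λ : ℕ → ℝ) (h0 : 0 < Λ 0) {s : ℕ} (hs : Λ s ≤ 0) :
    ∃ j, j < s ∧ ∃ θ : ℝ, (0 ≤ θ ∧ θ ≤ 1) ∧ (1 - θ) * Λ j + θ * Λ (j + 1) = 0 := by
  classical
  have hex : ∃ s, Λ s ≤ 0 := ⟨s, hs⟩
  have hm := Nat.find_spec hex
  have hle : Nat.find hex ≤ s := Nat.find_min' hex hs
  have hpos : Nat.find hex ≠ 0 := by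
    intro h
    rw [h] at hm
    linarith
  obtain ⟨j, hj⟩ : ∃ j, Nat.find hex = j + 1 := ⟨Nat.find hex - 1, by omega⟩
  have hj1 : 0 < Λ j := by
    have := Nat.find_min hex (m := j) (by omega)
    linarith
  rw [hj] at hm
  refine ⟨j, by omega, Λ j / (Λ j - Λ (j + 1)), ⟨?_, ?_⟩, ?_⟩
  · apply div_nonneg hj1.le; linarith
  · rw [div_le_one (by linarith)]; linarith
  · have : Λ j - Λ (j + 1) ≠ 0 := by linarith
    field_simp
    ring

/-- the quadratic has a nonpositive value at an integer of `[0, r]` -/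
lemma exists_int {N r : ℕ} (hr : 2 ≤ r) (hN : 2 ≤ N) (hrN : r ≤ N) : ∃ s : ℕ, s ≤ r ∧
    (r : ℝ) * (r - 1) * ((s * s - s) / (N * (N - 1)))
        - (r - 1) * (2 * (s * (r - s) / N)) + ((r - s) * (r - s) - (r - s)) ≤ 0 := by
  have hr' : (2 : ℝ) ≤ r := by exact_mod_cast hr
  have hN' : (2 : ℝ) ≤ N := by exact_mod_cast hN
  have hrN' : (r : ℝ) ≤ N := by exact_mod_cast hrN
  generalize hR : (r : ℝ) = R at *
  generalize hNN : (N : ℝ) = n at *
  set a : ℝ := (n + R - 1) * (n + R - 2) with ha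
  set b : ℝ := R * (R - 1) * (2 * n - 1) + n * (n - 1) * (2 * R - 1) with hb
  set c : ℝ := n * (n - 1) * (R * (R - 1)) with hc
  have hapos : 0 < a := by
    rw [ha]; apply mul_pos <;> linarith
  have hbpos : 0 ≤ b := by
    rw [hb]
    have h1 : 0 ≤ R * (R - 1) * (2 * n - 1) :=
      mul_nonneg (mul_nonneg (by linarith) (by linarith)) (by linarith)
    have h2 : 0 ≤ n * (n - 1) * (2 * R - 1) :=
      mul_nonneg (mul_nonneg (by linarith) (by linarith)) (by linarith)
    linarith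
  set v : ℝ := b / (2 * a) with hv
  have hvnn : 0 ≤ v := div_nonneg hbpos (by linarith)
  have hvR : v ≤ R := by
    rw [hv, div_le_iff₀ (by linarith)]
    have h1 : R * (2 * a) - b = 2 * n * (R * (R - 1)) + R * ((2 * R - 3) * (R - 1)) + n * (n - 1) := by
      rw [ha, hb]; ring
    have h2 : 0 ≤ 2 * n * (R * (R - 1)) :=
      mul_nonneg (by linarith) (mul_nonneg (by linarith) (by linarith))
    have h3 : 0 ≤ R * ((2 * R - 3) * (R - 1)) :=
      mul_nonneg (by linarith) (mul_nonneg (by linarith) (by linarith))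
    have h4 : 0 ≤ n * (n - 1) := mul_nonneg (by linarith) (by linarith)
    linarith
  refine ⟨⌊v + 1 / 2⌋₊, ?_, ?_⟩
  · have h1 : (⌊v + 1 / 2⌋₊ : ℝ) ≤ v + 1 / 2 := Nat.floor_le (by linarith)
    have h2 : (⌊v + 1 / 2⌋₊ : ℝ) < r + 1 := by rw [hR]; linarith
    have h3 : ⌊v + 1 / 2⌋₊ < r + 1 := by exact_mod_cast h2
    omega
  · have h1 : (⌊v + 1 / 2⌋₊ : ℝ) ≤ v + 1 / 2 := Nat.floor_le (by linarith)
    have h2 : v + 1 / 2 < (⌊v + 1 / 2⌋₊ : ℝ) + 1 := Nat.lt_floor_add_one _
    generalize (⌊v + 1 / 2⌋₊ : ℝ) = s at h1 h2 ⊢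
    have h3 : |s - v| ≤ 1 / 2 := abs_le.2 ⟨by linarith, by linarith⟩
    have hbv : b = 2 * a * v := by rw [hv]; field_simp
    have hdisc : b * b - 4 * a * c - a * a = 4 * ((n - 1) * (R - 1)) ^ 2 * (n + R - 1) := by
      rw [ha, hb, hc]; ring
    have hdisc' : 0 ≤ b * b - 4 * a * c - a * a := by
      rw [hdisc]
      apply mul_nonneg
      · positivity
      · linarith
    have hG : a * s * s - b * s + c ≤ 0 := by
      have h4 : (s - v) * (s - v) ≤ 1 / 4 := by
        have := mul_self_le_mul_self (abs_nonneg _) h3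
        rw [abs_mul_abs_self] at this
        linarith
      have h5 : 4 * a * (a * s * s - b * s + c) = 4 * a * a * ((s - v) * (s - v)) - a * a
          - (b * b - 4 * a * c - a * a) := by
        rw [hbv]; ring
      have h6 : 4 * a * a * ((s - v) * (s - v)) ≤ 4 * a * a * (1 / 4) :=
        mul_le_mul_of_nonneg_left h4 (by positivity)
      have h7 : 4 * a * (a * s * s - b * s + c) ≤ 0 := by linarith
      by_contra hcon
      push Not at hcon
      have : 0 < 4 * a * (a * s * s - b * s + c) := by positivity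
      linarith
    have hn0 : n ≠ 0 := by linarith
    have hn1 : n - 1 ≠ 0 := by linarith
    have hGG : R * (R - 1) * ((s * s - s) / (n * (n - 1)))
        - (R - 1) * (2 * (s * (R - s) / n)) + ((R - s) * (R - s) - (R - s))
        = (a * s * s - b * s + c) / (n * (n - 1)) := by
      rw [ha, hb, hc]
      field_simp
      ring
    rw [hGG]
    apply div_nonpos_of_nonpos_of_nonneg hG
    apply mul_nonneg <;> linarith

/-- gluing theorem -/
theorem glue (hr : 1 ≤ r) {c : ℕ} (hN : 2 ≤ Fintype.card (Fin r ⊕ S))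
    (H : HasStrong (Fin r ⊕ S) c) : HasStrong (AT r S) (6 * c + 2) := by
  obtain ⟨M, hMV, hMl, hM⟩ := H
  obtain ⟨U, hUV, hUc, hU2, hU1⟩ := exists_U hMV
  have hNr : (r : ℝ) ≤ (Fintype.card (Fin r ⊕ S) : ℝ) := by
    rw [Fintype.card_sum, Fintype.card_fin]; push_cast
    linarith [(Nat.cast_nonneg (Fintype.card S) : (0:ℝ) ≤ _)]
  have hN2 : (2 : ℝ) ≤ (Fintype.card (Fin r ⊕ S) : ℝ) := by exact_mod_cast hN
  -- first order network
  have hZ1 : ∃ Z1 : Net (AT r S), Valid Z1 ∧ cost Z1 ≤ 1 ∧ ∃ k, ∀ x, op1 U (op1 Z1 tR) x = k := by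
    obtain ⟨Λ, hΛ⟩ : ∃ Λ : ℕ → ℝ, ∀ s : ℕ, Λ s
        = ((r : ℝ) - s) - r * (s / (Fintype.card (Fin r ⊕ S) : ℝ)) := ⟨_, fun _ => rfl⟩
    have h0 : 0 < Λ 0 := by
      have : (0 : ℝ) < r := by exact_mod_cast hr
      rw [hΛ]
      simpa using this
    have hr0 : Λ r ≤ 0 := by
      have : (0 : ℝ) ≤ r * (r / (Fintype.card (Fin r ⊕ S) : ℝ)) := by positivity
      rw [hΛ, sub_self]
      linarith
    obtain ⟨j, hj, θ, hθ, hcr⟩ := exists_cross Λ h0 hr0
    obtain ⟨Z, hZV, hZc, hZ, -⟩ := exists_Z (S := S) j hj hθ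
    refine ⟨Z, hZV, hZc, ?_⟩
    obtain ⟨a, b, hab, hb⟩ := U1_type hM (by omega) hU1 (op1 Z tR)
    have hb0 : b = 0 := by
      apply hb
      have : op1 Z tR = fun x => (1 - θ) * mm j x + θ * mm (j + 1) x := funext hZ
      rw [this, Lam1_lin, Lam1_mm j hj.le, Lam1_mm (j + 1) (by omega), ← hΛ, ← hΛ]
      exact hcr
    refine ⟨a, fun x => ?_⟩
    rw [hab, hb0]; ring
  -- second order network
  have hZ2 : ∃ Z2 : Net (AT r S), Valid Z2 ∧ cost Z2 ≤ 1 ∧ ∃ a b c : ℝ, ∀ x y, x ≠ y →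
      op2 U (op2 Z2 (fun x y => tR x * tR y)) x y = a + b * tR x + c * tR y := by
    by_cases hr2 : r = 1
    · subst hr2
      refine ⟨[], valid_nil, by simp, ?_⟩
      obtain ⟨a, b, c, d, habcd, -⟩ := U2_type hM hN hU2 (fun x y => tR x * tR y)
      refine ⟨a, b, c, fun x y hxy => ?_⟩
      rw [op2_nil, habcd x y hxy]
      rcases x with x | x
      · simp
      · rcases y with y | y
        · simp
        · exact absurd (by rw [Subsingleton.elim x y]) hxy
    · have hr2' : 2 ≤ r := by omega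
      obtain ⟨s, hs, hsle⟩ := exists_int (N := Fintype.card (Fin r ⊕ S)) hr2' hN (by
        exact_mod_cast hNr)
      set Λ : ℕ → ℝ := fun s => r * (r - 1) * ((s * s - s) / ((Fintype.card (Fin r ⊕ S)) *
          ((Fintype.card (Fin r ⊕ S)) - 1)))
        - (r - 1) * (2 * (s * (r - s) / (Fintype.card (Fin r ⊕ S))))
        + ((r - s) * (r - s) - (r - s)) with hΛ
      have h0 : 0 < Λ 0 := by
        have h2 : (2 : ℝ) ≤ r := by exact_mod_cast hr2'
        simp only [hΛ, Nat.cast_zero]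
        have : (r : ℝ) * (r - 1) * ((0 * 0 - 0) / ((Fintype.card (Fin r ⊕ S)) *
          ((Fintype.card (Fin r ⊕ S)) - 1)))
          - (r - 1) * (2 * (0 * (r - 0) / (Fintype.card (Fin r ⊕ S))))
          + ((r - 0) * (r - 0) - (r - 0)) = r * (r - 1) := by ring
        rw [this]
        apply mul_pos <;> linarith
      obtain ⟨j, hj, θ, hθ, hcr⟩ := exists_cross Λ h0 (s := s) hsle
      obtain ⟨Z, hZV, hZc, -, hZ⟩ := exists_Z (S := S) j (lt_of_lt_of_le hj hs) hθ
      refine ⟨Z, hZV, hZc, ?_⟩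
      obtain ⟨a, b, c, d, habcd, hd⟩ := U2_type hM hN hU2 (op2 Z (fun x y => tR x * tR y))
      have hd0 : d = 0 := by
        apply hd
        have : op2 Z (fun x y => tR x * tR y) = fun x y => (1 - θ) * (mm j x * mm j y)
            + θ * (mm (j + 1) x * mm (j + 1) y) := by
          funext x y; exact hZ x y
        rw [this, Lam2_lin, Lam2_mm j (by omega), Lam2_mm (j + 1) (by omega)]
        exact hcr
      refine ⟨a, b, c, fun x y hxy => ?_⟩
      rw [habcd x y hxy, hd0]; ring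
  obtain ⟨Z1, hZ1V, hZ1c, k1, hk1⟩ := hZ1
  obtain ⟨Z2, hZ2V, hZ2c, a2, b2, c2, hk2⟩ := hZ2
  apply HasStrong.of_cost (U ++ (Z1 ++ (U ++ (Z2 ++ U))))
  · exact hUV.append (hZ1V.append (hUV.append (hZ2V.append hUV)))
  · rw [cost_append, cost_append, cost_append, cost_append]
    omega
  · intro f x y x' y' hxy hxy'
    -- it is enough to show that the value is constant
    suffices h : ∃ k, ∀ x y : AT r S, x ≠ y →
        op2 (U ++ (Z1 ++ (U ++ (Z2 ++ U)))) f x y = k by
      obtain ⟨k, hk⟩ := h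
      rw [hk x y hxy, hk x' y' hxy']
    obtain ⟨a, b, c, d, h1, -⟩ := U2_type hM hN hU2 f
    -- expected value of the indicator after U Z2
    obtain ⟨p, q, hpq, -⟩ := U1_type hM (by omega) hU1 (op1 Z2 tR)
    refine ⟨a + b * p + c * p + d * a2 + (b * q + d * b2) * k1 + (c * q + d * c2) * k1, ?_⟩
    intro x y hxy
    rw [op2_append, op2_append, op2_append, op2_append]
    have s1 : ∀ x y : AT r S, x ≠ y → op2 U (op2 Z2 (op2 U f)) x y
        = (a + b * p + c * p + d * a2) + (b * q + d * b2) * tR x + (c * q + d * c2) * tR y := by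
      intro x y hxy
      have e1 : op2 U (op2 Z2 (op2 U f)) x y = op2 (U ++ Z2) (op2 U f) x y := by
        rw [op2_append]
      rw [e1, op2_congr_off _ (g := fun x y => a + b * tR x + c * tR y + d * (tR x * tR y)) h1 hxy]
      rw [op2_add, op2_add, op2_add, op2_const, op2_smul, op2_smul, op2_smul]
      have e2 : op2 (U ++ Z2) (fun x _ => tR x) x y = p + q * tR x := by
        rw [op2_fst, op1_append]; exact hpq x
      have e3 : op2 (U ++ Z2) (fun _ y => tR y) x y = p + q * tR y := by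
        rw [op2_snd, op1_append]; exact hpq y
      rw [e2, e3, op2_append, hk2 x y hxy]
      ring
    have e1 : ∀ F : AT r S → AT r S → ℝ, op2 U (op2 Z1 F) = op2 (U ++ Z1) F := fun F => by
      rw [op2_append]
    rw [e1, op2_congr_off _ s1 hxy, op2_add, op2_add, op2_const, op2_smul, op2_smul]
    have e2 : op2 (U ++ Z1) (fun x _ => tR x) x y = k1 := by
      rw [op2_fst, op1_append]; exact hk1 x
    have e3 : op2 (U ++ Z1) (fun _ y => tR y) x y = k1 := by
      rw [op2_snd, op1_append]; exact hk1 y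
    rw [e2, e3]

end glue

end Pool.Agent.Lib.MP_2f8515_co
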