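import Pool.Agent.Lib.MP_2f8515_co.Prod

/-!
# Killing one function of the difference on an elementary abelian 2-group
-/

set_option linter.unusedSectionVars false

namespace Pool.Agent.Lib.MP_2f8515_co

open Equiv

section kill
variable {V : Type} [AddCommGroup V] [Module (ZMod 2) V] [DecidableEq V] [Fintype V]

lemma add_self' (v : V) : v + v = 0 := by
  have h : ((1 : ZMod 2) + 1) • v = v + v := by rw [add_smul, one_smul]
  rw [← h, show (1 : ZMod 2) + 1 = 0 from rfl, zero_smul]

lemma add_add_self' (x v : V) : x + v + v = x := by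
  rw [add_assoc, add_self', add_zero]

/-- one step of the chain on differences -/
def stepOp (v : V) (q : ℝ) (g : V → ℝ) : V → ℝ :=
  fun D => if D = 0 ∨ D = v then g D else (1 - q) * g D + q * g (D + v)

/-- several steps; the last entry of the list is applied to `g` first -/
def run : List (V × ℝ) → (V → ℝ) → V → ℝ
  | [], g => g
  | a :: s, g => stepOp a.1 a.2 (run s g)

lemma run_append (s t : List (V × ℝ)) (g : V → ℝ) : run (s ++ t) g = run s (run t g) := by
  induction s with
  | nil => rfl
  | cons a s ih => simp only [List.cons_append, run, ih]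

lemma stepOp_formula {v : V} (hv : v ≠ 0) (q : ℝ) (g : V → ℝ) (D : V) :
    stepOp v q g D = (1 - q) * g D + q * g (D + v)
      + q * (g 0 - g v) * ((if D = 0 then 1 else 0) - (if D = v then 1 else 0)) := by
  unfold stepOp
  by_cases h0 : D = 0
  · subst h0
    simp [Ne.symm hv]; ring
  · by_cases h1 : D = v
    · subst h1
      simp [hv, add_self']; ring
    · simp [h0, h1]

lemma sum_translate {W : Finset V} (hW : ∀ a ∈ W, ∀ b ∈ W, a + b ∈ W) {d : V} (hd : d ∈ W)
    (f : V → ℝ) : ∑ w ∈ W, f (w + d) = ∑ w ∈ W, f w := by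
  refine Finset.sum_bij' (fun w _ => w + d) (fun w _ => w + d) ?_ ?_ ?_ ?_ ?_
  · intro w hw; exact hW w hw d hd
  · intro w hw; exact hW w hw d hd
  · intro w _; exact add_add_self' w d
  · intro w _; exact add_add_self' w d
  · intro w _; rfl

lemma zmod2_ne_zero {a : ZMod 2} (h : a ≠ 0) : a = 1 := by
  revert h; revert a; decide

lemma sum_split {W : Finset V} (hW : ∀ a ∈ W, ∀ b ∈ W, a + b ∈ W) {u : V} (hu : u ∈ W)
    (φ : V →ₗ[ZMod 2] ZMod 2) (hφ : φ u ≠ 0) (f : V → ℝ) :
    ∑ w ∈ W, f w = ∑ w ∈ W.filter (fun w => φ w = 0), f w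
      + ∑ w ∈ W.filter (fun w => φ w = 0), f (w + u) := by
  rw [← Finset.sum_filter_add_sum_filter_not W (fun w => φ w = 0)]
  congr 1
  have hu1 : φ u = 1 := zmod2_ne_zero hφ
  refine Finset.sum_bij' (fun w _ => w + u) (fun w _ => w + u) ?_ ?_ ?_ ?_ ?_
  · intro w hw
    rw [Finset.mem_filter] at hw ⊢
    refine ⟨hW w hw.1 u hu, ?_⟩
    rw [map_add, zmod2_ne_zero hw.2, hu1]; rfl
  · intro w hw
    rw [Finset.mem_filter] at hw ⊢
    refine ⟨hW w hw.1 u hu, ?_⟩
    rw [map_add, hw.2, hu1]; decide
  · intro w _; exact add_add_self' w u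
  · intro w _; exact add_add_self' w u
  · intro w _; rw [add_add_self']

lemma sum_stepOp {W : Finset V} (h0 : (0 : V) ∈ W) (hW : ∀ a ∈ W, ∀ b ∈ W, a + b ∈ W) {v : V}
    (hv : v ∈ W) (hv0 : v ≠ 0) (q : ℝ) (g : V → ℝ) :
    ∑ D ∈ W, stepOp v q g D = ∑ D ∈ W, g D := by
  simp_rw [stepOp_formula hv0]
  rw [Finset.sum_add_distrib, Finset.sum_add_distrib, ← Finset.mul_sum, ← Finset.mul_sum,
    ← Finset.mul_sum, sum_translate hW hv, Finset.sum_sub_distrib, Finset.sum_ite_eq',
    Finset.sum_ite_eq', if_pos h0, if_pos hv]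
  ring

/-- the first (partial) step -/
lemma first_step {W : Finset V} (h0 : (0 : V) ∈ W) (hW : ∀ a ∈ W, ∀ b ∈ W, a + b ∈ W)
    (hne : ∃ w ∈ W, w ≠ 0) (g : V → ℝ) (hg : ∑ D ∈ W, g D = g 0) :
    ∃ (s : List (V × ℝ)) (u : V), s.length ≤ 1 ∧
      (∀ a ∈ s, a.1 ≠ 0 ∧ 0 ≤ a.2 ∧ a.2 ≤ 1 / 2) ∧ u ∈ W ∧ u ≠ 0 ∧ run s g u = 0 ∧
      (∑ D ∈ W, run s g D = run s g 0) ∧
      (∀ (h : V → ℝ) (x : V), x ∉ W → ∑ w ∈ W, run s h (x + w) = ∑ w ∈ W, h (x + w)) := by
  by_cases hz : ∃ u ∈ W, u ≠ 0 ∧ g u = 0
  · obtain ⟨u, huW, hu0, hgu⟩ := hz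
    exact ⟨[], u, by simp, by simp, huW, hu0, hgu, hg, fun h x _ => rfl⟩
  · push Not at hz
    -- two elements with opposite signs
    have hsum : ∑ D ∈ W.erase 0, g D = 0 := by
      rw [Finset.sum_erase_eq_sub h0, hg]; ring
    obtain ⟨w0, hw0W, hw00⟩ := hne
    have hw0e : w0 ∈ W.erase 0 := Finset.mem_erase.2 ⟨hw00, hw0W⟩
    have hpos : ∃ a ∈ W.erase 0, 0 < g a := by
      by_contra hcon
      push Not at hcon
      have h1 := (Finset.sum_eq_zero_iff_of_nonpos hcon).1 hsum w0 hw0e
      exact hz w0 hw0W hw00 h1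
    have hneg : ∃ a ∈ W.erase 0, g a < 0 := by
      by_contra hcon
      push Not at hcon
      have h1 := (Finset.sum_eq_zero_iff_of_nonneg hcon).1 hsum w0 hw0e
      exact hz w0 hw0W hw00 h1
    obtain ⟨a, ha, hga⟩ := hpos
    obtain ⟨b, hb, hgb⟩ := hneg
    rw [Finset.mem_erase] at ha hb
    have key : ∃ u w : V, u ∈ W ∧ u ≠ 0 ∧ w ∈ W ∧ w ≠ 0 ∧ u ≠ w ∧ |g u| ≤ |g w| ∧
        0 < |g w| ∧ |g w| * g u + |g u| * g w = 0 := by
      have hab : a ≠ b := by rintro rfl; linarith
      rcases le_total (|g a|) (|g b|) with h | h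
      · refine ⟨a, b, ha.2, ha.1, hb.2, hb.1, hab, h, abs_pos.2 hgb.ne, ?_⟩
        rw [abs_of_pos hga, abs_of_neg hgb]; ring
      · refine ⟨b, a, hb.2, hb.1, ha.2, ha.1, hab.symm, h, abs_pos.2 hga.ne', ?_⟩
        rw [abs_of_pos hga, abs_of_neg hgb]; ring
    obtain ⟨u, w, huW, hu0, hwW, hw0, huw, hle, hgw, hcomb⟩ := key
    have hgu : 0 ≤ |g u| := abs_nonneg _
    have hv0 : u + w ≠ 0 := by
      intro h
      apply huw
      have : u + w + w = 0 + w := by rw [h]
      rwa [add_add_self', zero_add] at this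
    have huv : u ≠ u + w := by
      intro h
      apply hw0
      have : u + 0 = u + w := by rw [add_zero]; exact h
      exact (add_left_cancel this).symm
    have hvW : u + w ∈ W := hW u huW w hwW
    refine ⟨[(u + w, |g u| / (|g u| + |g w|))], u, by simp, ?_, huW, hu0, ?_, ?_, ?_⟩
    · intro a ha
      rw [List.mem_singleton] at ha
      subst ha
      refine ⟨hv0, ?_, ?_⟩
      · positivity
      · show |g u| / (|g u| + |g w|) ≤ 1 / 2
        rw [div_le_div_iff₀ (by linarith) (by norm_num)]
        linarith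
    · show stepOp (u + w) (|g u| / (|g u| + |g w|)) g u = 0
      unfold stepOp
      rw [if_neg (by push Not; exact ⟨hu0, huv⟩)]
      have : u + (u + w) = w := by rw [← add_assoc, add_self', zero_add]
      rw [this]
      have hs : |g u| + |g w| ≠ 0 := by linarith
      field_simp
      linarith
    · show ∑ D ∈ W, stepOp (u + w) _ g D = stepOp (u + w) _ g 0
      rw [sum_stepOp h0 hW hvW hv0, hg]
      simp [stepOp]
    · intro h x hx
      show ∑ y ∈ W, stepOp (u + w) _ h (x + y) = _
      have h1 : ∀ y ∈ W, stepOp (u + w) (|g u| / (|g u| + |g w|)) h (x + y)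
          = (1 - |g u| / (|g u| + |g w|)) * h (x + y)
            + |g u| / (|g u| + |g w|) * h (x + (y + (u + w))) := by
        intro y hy
        have hxy : x + y ∉ W := by
          intro hmem
          apply hx
          have := hW _ hmem _ hy
          rwa [add_add_self'] at this
        unfold stepOp
        rw [if_neg, add_assoc]
        push Not
        exact ⟨fun e => hxy (e ▸ h0), fun e => hxy (e ▸ hvW)⟩
      rw [Finset.sum_congr rfl h1, Finset.sum_add_distrib, ← Finset.mul_sum, ← Finset.mul_sum,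
        sum_translate hW hvW (fun y => h (x + y))]
      ring

theorem kill (k : ℕ) : ∀ (W : Finset V), (0 : V) ∈ W → (∀ a ∈ W, ∀ b ∈ W, a + b ∈ W) →
    W.card ≤ 2 ^ k → ∀ g : V → ℝ, ∑ D ∈ W, g D = g 0 →
    ∃ s : List (V × ℝ), s.length ≤ 2 * k ∧ (∀ a ∈ s, a.1 ≠ 0 ∧ 0 ≤ a.2 ∧ a.2 ≤ 1 / 2) ∧
      (∀ D ∈ W, D ≠ 0 → run s g D = 0) ∧
      (∀ (h : V → ℝ) (x : V), x ∉ W → (W.card : ℝ) * run s h x = ∑ w ∈ W, h (x + w)) := by
  induction k with
  | zero =>
    intro W h0 hW hcard g hg
    have hW0 : W = {0} := by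
      rw [pow_zero] at hcard
      exact (Finset.card_le_one_iff_subset_singleton.1 hcard).elim (fun y hy => by
        have hy0 : (0 : V) = y := by simpa using hy h0
        subst hy0
        exact Finset.Subset.antisymm hy (by simpa using h0))
    subst hW0
    refine ⟨[], by simp, by simp, ?_, ?_⟩
    · intro D hD hD0
      exact absurd (by simpa using hD) hD0
    · intro h x _
      simp [run]
  | succ k ih =>
    intro W h0 hW hcard g hg
    by_cases hne : ∃ w ∈ W, w ≠ 0
    · obtain ⟨s1, u, hlen1, hval1, huW, hu0, hgu, hsum1, hcos1⟩ := first_step h0 hW hne g hg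
      -- hyperplane
      obtain ⟨φ, hφ⟩ : ∃ φ : V →ₗ[ZMod 2] ZMod 2, φ u ≠ 0 := by
        by_contra hcon
        push Not at hcon
        exact hu0 ((Module.forall_dual_apply_eq_zero_iff (ZMod 2) u).1 hcon)
      set W' := W.filter (fun w => φ w = 0) with hW'
      have h0' : (0 : V) ∈ W' := by simp [hW', h0]
      have hcl' : ∀ a ∈ W', ∀ b ∈ W', a + b ∈ W' := by
        intro a ha b hb
        rw [hW', Finset.mem_filter] at ha hb ⊢
        exact ⟨hW a ha.1 b hb.1, by rw [map_add, ha.2, hb.2, add_zero]⟩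
      have huW' : u ∉ W' := by simp [hW', hφ]
      have hcardW : (W.card : ℝ) = 2 * (W'.card : ℝ) := by
        have := sum_split hW huW φ hφ (fun _ => (1 : ℝ))
        simp only [Finset.sum_const, nsmul_eq_mul, mul_one] at this
        rw [this]; ring
      have hcard' : W'.card ≤ 2 ^ k := by
        have h1 : (W'.card : ℝ) * 2 ≤ 2 ^ k * 2 := by
          have : (W.card : ℝ) ≤ 2 ^ (k + 1) := by exact_mod_cast hcard
          rw [pow_succ] at this
          linarith
        have h2 : (W'.card : ℝ) ≤ 2 ^ k := by linarith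
        exact_mod_cast h2
      set g1 := run s1 g with hg1
      set g2 := stepOp u (1 / 2) g1 with hg2
      have hg20 : g2 0 = g1 0 := by simp [hg2, stepOp]
      have hsumW : ∑ D ∈ W, g2 D = g2 0 := by
        rw [hg20, hg2, sum_stepOp h0 hW huW hu0, hsum1]
      have hsumW' : ∑ D ∈ W', g2 D = g2 0 := by
        rw [hg2]
        simp_rw [stepOp_formula hu0]
        rw [Finset.sum_add_distrib, Finset.sum_add_distrib, ← Finset.mul_sum, ← Finset.mul_sum,
          ← Finset.mul_sum, Finset.sum_sub_distrib, Finset.sum_ite_eq',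
          Finset.sum_ite_eq', if_pos h0', if_neg huW']
        have h3 := sum_split hW huW φ hφ g1
        rw [← hW', hsum1] at h3
        have h4 : g1 u = 0 := hgu
        rw [h4, zero_add, h4]
        simp only [if_true, Ne.symm hu0, if_false]
        linarith
      obtain ⟨s', hlen', hval', hkill', hcos'⟩ := ih W' h0' hcl' hcard' g2 hsumW'
      have hcpos : (W'.card : ℝ) ≠ 0 := by
        have : 0 < W'.card := Finset.card_pos.2 ⟨0, h0'⟩
        positivity
      have hrun : ∀ h : V → ℝ, run (s' ++ ((u, 1 / 2) :: s1)) h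
          = run s' (stepOp u (1 / 2) (run s1 h)) := by
        intro h
        rw [run_append]; rfl
      refine ⟨s' ++ ((u, 1 / 2) :: s1), ?_, ?_, ?_, ?_⟩
      · simp only [List.length_append, List.length_cons]
        omega
      · intro a ha
        rcases List.mem_append.1 ha with h | h
        · exact hval' a h
        · rcases List.mem_cons.1 h with h | h
          · subst h; exact ⟨hu0, by norm_num, le_refl _⟩
          · exact hval1 a h
      · intro D hD hD0
        rw [hrun, ← hg1, ← hg2]
        by_cases hφD : φ D = 0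
        · exact hkill' D (by rw [hW', Finset.mem_filter]; exact ⟨hD, hφD⟩) hD0
        · have hDW' : D ∉ W' := by simp [hW', hφD]
          have h5 := hcos' g2 D hDW'
          have hDu : D + u ∈ W' := by
            rw [hW', Finset.mem_filter]
            refine ⟨hW D hD u huW, ?_⟩
            rw [map_add, zmod2_ne_zero hφD, zmod2_ne_zero hφ]; rfl
          have h6 : ∑ w ∈ W', g2 (D + w) = ∑ w ∈ W', g2 (w + u) := by
            rw [← sum_translate hcl' hDu (fun w => g2 (w + u))]
            refine Finset.sum_congr rfl fun w _ => ?_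
            congr 1
            rw [show w + (D + u) + u = (w + D) + u + u by abel, add_add_self']
            abel
          have h7 := sum_split hW huW φ hφ g2
          rw [← hW', hsumW, hsumW'] at h7
          rw [h6] at h5
          have h8 : ∑ w ∈ W', g2 (w + u) = 0 := by linarith
          rw [h8] at h5
          exact (mul_eq_zero.1 h5).resolve_left hcpos
      · intro h x hx
        rw [hrun]
        have hxW' : x ∉ W' := fun hh => hx (Finset.filter_subset _ _ hh)
        have h5 := hcos' (stepOp u (1 / 2) (run s1 h)) x hxW'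
        have h6 : ∀ w ∈ W', stepOp u (1 / 2) (run s1 h) (x + w)
            = 1 / 2 * run s1 h (x + w) + 1 / 2 * run s1 h (x + (w + u)) := by
          intro w hw
          have hwW : w ∈ W := Finset.filter_subset _ _ hw
          have hxy : x + w ∉ W := by
            intro hmem
            apply hx
            have := hW _ hmem _ hwW
            rwa [add_add_self'] at this
          unfold stepOp
          rw [if_neg, add_assoc]
          · ring
          · push Not
            exact ⟨fun e => hxy (e ▸ h0), fun e => hxy (e ▸ huW)⟩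
        rw [Finset.sum_congr rfl h6, Finset.sum_add_distrib, ← Finset.mul_sum,
          ← Finset.mul_sum] at h5
        have h7 := sum_split hW huW φ hφ (fun w => run s1 h (x + w))
        rw [← hW', hcos1 h x hx] at h7
        rw [hcardW, mul_assoc, h5, h7]
        ring
    · push Not at hne
      have hW0 : W = {0} := by
        ext w
        simp only [Finset.mem_singleton]
        exact ⟨fun hw => hne w hw, fun hw => hw ▸ h0⟩
      subst hW0
      refine ⟨[], by simp, by simp, ?_, ?_⟩
      · intro D hD hD0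
        exact absurd (by simpa using hD) hD0
      · intro h x _
        simp [run]

end kill

end Pool.Agent.Lib.MP_2f8515_co
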