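import Pool.Agent.Lib.MP_2f8515_co.Basic

/-!
# Vertices of polytopes and reduction of randomness in parallel networks
-/

set_option linter.unusedSectionVars false

namespace Pool.Agent.Lib.MP_2f8515_co

open Equiv

open Classical in
/-- fractional coordinates -/
noncomputable def frac {Y : Type} [Fintype Y] (q : Y → ℝ) : Finset Y :=
  Finset.univ.filter (fun y => q y ≠ 0 ∧ q y ≠ 1)

/-- a feasible system with `|I|` equations has a solution with at most `|I|` fractional
coordinates -/
lemma vertex {I Y : Type} [Fintype I] [Fintype Y] (c : I → Y → ℝ) (p : Y → ℝ)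
    (hp : ∀ y, 0 ≤ p y ∧ p y ≤ 1) :
    ∃ q : Y → ℝ, (∀ y, 0 ≤ q y ∧ q y ≤ 1) ∧ (∀ i, ∑ y, c i y * q y = ∑ y, c i y * p y) ∧
      (frac q).card ≤ Fintype.card I := by
  classical
  generalize hm : (frac p).card = m
  induction m using Nat.strong_induction_on generalizing p with
  | _ m ih =>
    by_cases hle : m ≤ Fintype.card I
    · exact ⟨p, hp, fun i => rfl, hm ▸ hle⟩
    · push Not at hle
      -- kernel direction
      let T : ({y // y ∈ frac p} → ℝ) →ₗ[ℝ] (I → ℝ) :=
        { toFun := fun d i => ∑ y, c i y.1 * d y
          map_add' := by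
            intro d d'; funext i
            simp [mul_add, Finset.sum_add_distrib]
          map_smul' := by
            intro r d; funext i
            simp only [Pi.smul_apply, smul_eq_mul, RingHom.id_apply, Finset.mul_sum]
            refine Finset.sum_congr rfl fun y _ => by ring }
      have hker : LinearMap.ker T ≠ ⊥ := by
        apply LinearMap.ker_ne_bot_of_finrank_lt
        rw [Module.finrank_fintype_fun_eq_card, Module.finrank_fintype_fun_eq_card,
          Fintype.card_coe, hm]
        exact hle
      obtain ⟨d, hd, hd0⟩ := (Submodule.ne_bot_iff _).1 hker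
      obtain ⟨y1, hy1⟩ := Function.ne_iff.1 hd0
      -- extend the direction by zero
      let D : Y → ℝ := fun y => if h : y ∈ frac p then d ⟨y, h⟩ else 0
      have hDsum : ∀ i, ∑ y, c i y * D y = 0 := by
        intro i
        have h1 : ∑ y : {y // y ∈ frac p}, c i y.1 * d y = 0 := congrFun hd i
        have h2 : ∑ y ∈ frac p, c i y * D y = 0 := by
          rw [← h1, ← Finset.sum_coe_sort (frac p)]
          refine Finset.sum_congr rfl fun y _ => ?_
          simp [D, y.2]
        rw [← h2]
        symm
        apply Finset.sum_subset (Finset.subset_univ _)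
        intro y _ hy
        simp [D, hy]
      have hD0 : ∀ y, y ∉ frac p → D y = 0 := fun y hy => by simp [D, hy]
      let S : Finset Y := Finset.univ.filter (fun y => D y ≠ 0)
      have hS : S.Nonempty := ⟨y1.1, by simp [S, D, y1.2]; exact hy1⟩
      let t : Y → ℝ := fun y => if 0 < D y then (1 - p y) / D y else p y / (- D y)
      obtain ⟨y0, hy0, hmin⟩ := Finset.exists_min_image S t hS
      have hfr : ∀ y, D y ≠ 0 → 0 < p y ∧ p y < 1 := by
        intro y hy
        have hyf : y ∈ frac p := by
          by_contra h; exact hy (hD0 y h)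
        simp only [frac, Finset.mem_filter, Finset.mem_univ, true_and] at hyf
        exact ⟨lt_of_le_of_ne (hp y).1 (Ne.symm hyf.1), lt_of_le_of_ne (hp y).2 hyf.2⟩
      have hy0' : D y0 ≠ 0 := by simpa [S] using hy0
      have ht0 : 0 < t y0 := by
        obtain ⟨h1, h2⟩ := hfr y0 hy0'
        simp only [t]
        split_ifs with h
        · exact div_pos (by linarith) h
        · exact div_pos h1 (by have := lt_of_le_of_ne (not_lt.1 h) hy0'; linarith)
      let q : Y → ℝ := fun y => p y + t y0 * D y
      have hq : ∀ y, 0 ≤ q y ∧ q y ≤ 1 := by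
        intro y
        by_cases hy : D y = 0
        · simp only [q, hy, mul_zero, add_zero]; exact hp y
        · obtain ⟨h1, h2⟩ := hfr y hy
          have hty : t y0 ≤ t y := hmin y (by simp [S, hy])
          simp only [q]
          by_cases hpos : 0 < D y
          · have : t y = (1 - p y) / D y := by simp [t, hpos]
            rw [this, le_div_iff₀ hpos] at hty
            have : 0 < t y0 * D y := mul_pos ht0 hpos
            constructor <;> linarith
          · have hneg : D y < 0 := lt_of_le_of_ne (not_lt.1 hpos) hy
            have : t y = p y / (- D y) := by simp [t, hpos]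
            rw [this, le_div_iff₀ (by linarith)] at hty
            have : t y0 * D y < 0 := mul_neg_of_pos_of_neg ht0 hneg
            constructor <;> linarith
      have hqy0 : q y0 = 0 ∨ q y0 = 1 := by
        by_cases hpos : 0 < D y0
        · right
          have : t y0 = (1 - p y0) / D y0 := by simp [t, hpos]
          simp only [q, this]
          field_simp
          ring
        · left
          have hneg : D y0 < 0 := lt_of_le_of_ne (not_lt.1 hpos) hy0'
          have : t y0 = p y0 / (- D y0) := by simp [t, hpos]
          simp only [q, this]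
          field_simp
          ring
      have hlt : (frac q).card < m := by
        rw [← hm]
        apply Finset.card_lt_card
        constructor
        · intro y hy
          by_contra h
          have : q y = p y := by simp [q, hD0 y h]
          simp only [frac, Finset.mem_filter, Finset.mem_univ, true_and, this] at hy h
          exact h hy
        · intro h
          have h1 : y0 ∈ frac p := by
            by_contra h; exact hy0' (hD0 y0 h)
          have h2 := h h1
          simp only [frac, Finset.mem_filter, Finset.mem_univ, true_and] at h2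
          rcases hqy0 with h3 | h3
          · exact h2.1 h3
          · exact h2.2 h3
      obtain ⟨q', hq', hs, hc⟩ := ih _ hlt q hq rfl
      refine ⟨q', hq', fun i => ?_, hc⟩
      rw [hs i]
      simp only [q]
      have : ∑ y, c i y * (p y + t y0 * D y) = ∑ y, c i y * p y + t y0 * ∑ y, c i y * D y := by
        rw [Finset.mul_sum, ← Finset.sum_add_distrib]
        refine Finset.sum_congr rfl fun y _ => by ring
      rw [this, hDsum i]; ring

/-- in a parallel network, few random bits per slot are enough to preserve `|I|` linear
functionals -/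
lemma reduce {Y Z I : Type} [Fintype Y] [DecidableEq Z] [Fintype I]
    (M : Net Z) (hM : Valid M) (Φ : I → (Y → Z → Z → ℝ) →ₗ[ℝ] ℝ) (β : I → Z → Z → ℝ) :
    ∃ M' : Y → Net Z, (∀ y, Valid (M' y)) ∧ ∑ y, cost (M' y) ≤ Fintype.card I * M.length ∧
      ∀ i, Φ i (fun y => op2 (M' y) (β i)) = Φ i (fun _ => op2 M (β i)) := by
  classical
  induction M generalizing Φ with
  | nil => exact ⟨fun _ => [], fun _ => valid_nil, by simp, fun i => rfl⟩
  | cons e M ih =>
    obtain ⟨he, hM1⟩ := hM.cons
    let Tm : (Y → Z → Z → ℝ) →ₗ[ℝ] (Y → Z → Z → ℝ) :=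
      LinearMap.pi (fun y => (op2L [e]) ∘ₗ (LinearMap.proj y))
    have hTm : ∀ h, Tm h = fun y => op2 [e] (h y) := fun h => rfl
    obtain ⟨M1, hV1, hc1, h1⟩ := ih hM1 (fun i => (Φ i) ∘ₗ Tm)
    let u : I → Y → Z → Z → ℝ := fun i y => op2 (M1 y) (β i)
    let D : I → Y → Z → Z → ℝ := fun i y => fun a b =>
      u i y (swap e.1 e.2.1 a) (swap e.1 e.2.1 b) - u i y a b
    obtain ⟨q, hq, hs, hcq⟩ := vertex (fun i y => Φ i (Pi.single y (D i y))) (fun _ => e.2.2)
      (fun _ => he.2)
    have key : ∀ (r : Y → ℝ) (i : I),
        Φ i (fun y => op2 ((e.1, e.2.1, r y) :: M1 y) (β i))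
          = Φ i (u i) + ∑ y, Φ i (Pi.single y (D i y)) * r y := by
      intro r i
      have h2 : (fun y => op2 ((e.1, e.2.1, r y) :: M1 y) (β i))
          = u i + ∑ y, r y • (Pi.single y (D i y) : Y → Z → Z → ℝ) := by
        funext y
        rw [Pi.add_apply, Finset.sum_apply, Finset.sum_eq_single y]
        · funext a b
          simp only [Pi.smul_apply, Pi.single_eq_same, Pi.add_apply, smul_eq_mul, op2_cons, D, u]
          ring
        · intro y' _ hy'
          rw [Pi.smul_apply, Pi.single_eq_of_ne (Ne.symm hy'), smul_zero]
        · intro h; exact absurd (Finset.mem_univ y) h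
      rw [h2, map_add, map_sum]
      congr 1
      refine Finset.sum_congr rfl fun y _ => ?_
      rw [map_smul, smul_eq_mul, mul_comm]
    refine ⟨fun y => (e.1, e.2.1, q y) :: M1 y, fun y => valid_cons ⟨he.1, hq y⟩ (hV1 y), ?_, ?_⟩
    · have h3 : ∀ y, cost ((e.1, e.2.1, q y) :: M1 y) = cost (M1 y)
          + if (q y ≠ 0 ∧ q y ≠ 1) then 1 else 0 := by
        intro y
        split_ifs with h
        · rw [cost_cons_rand _ h]
        · rw [cost_cons_det]
          · simp
          · simp only [not_and_or, not_not] at h; exact h
      have h4 : ∑ y, (if (q y ≠ 0 ∧ q y ≠ 1) then 1 else 0) = (frac q).card := by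
        simp only [frac, Finset.card_filter]
      calc ∑ y, cost ((e.1, e.2.1, q y) :: M1 y)
          = ∑ y, cost (M1 y) + (frac q).card := by
            rw [← h4, ← Finset.sum_add_distrib]
            exact Finset.sum_congr rfl fun y _ => h3 y
        _ ≤ Fintype.card I * M.length + Fintype.card I := Nat.add_le_add hc1 hcq
        _ = Fintype.card I * (e :: M).length := by rw [List.length_cons]; ring
    · intro i
      rw [key q i]
      have h5 := hs i
      rw [h5, ← key (fun _ => e.2.2) i]
      have h6 := h1 i
      simp only [LinearMap.comp_apply, hTm] at h6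
      have h7 : (fun y => op2 ((e.1, e.2.1, e.2.2) :: M1 y) (β i))
          = fun y => op2 [e] (op2 (M1 y) (β i)) := by
        funext y
        rw [← op2_append]; rfl
      have h8 : (fun _ : Y => op2 (e :: M) (β i)) = fun _ : Y => op2 [e] (op2 M (β i)) := by
        funext y
        rw [← op2_append]; rfl
      rw [h7, h8, h6]

end Pool.Agent.Lib.MP_2f8515_co
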