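import Pool.Agent.Lib.MP_2f8515_co.Kill

/-!
# Layers realise the steps
-/

set_option linter.unusedSectionVars false

namespace Pool.Agent.Lib.MP_2f8515_co

open Equiv

section layer
variable {V : Type} [AddCommGroup V] [Module (ZMod 2) V] [DecidableEq V] [Fintype V]

lemma op1_bool (p : ℝ) (g : Bool → ℝ) (b : Bool) :
    op1 [(false, true, p)] g b = (1 - p) * g b + p * g (!b) := by
  cases b <;> simp [op1]

lemma op2_bool (p : ℝ) (f : Bool → Bool → ℝ) (b c : Bool) :
    op2 [(false, true, p)] f b c = (1 - p) * f b c + p * f (!b) (!c) := by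
  cases b <;> cases c <;> simp [op2]

lemma exists_layer {v : V} (hv : v ≠ 0) {q : ℝ} (hq0 : 0 ≤ q) (hq1 : q ≤ 1 / 2) :
    ∃ L : Net V, Valid L ∧ L.length ≤ Fintype.card V ∧ ∀ (g : V → ℝ) (x y : V), x ≠ y →
      op2 L (fun x y => g (x + y)) x y = stepOp v q g (x + y) := by
  obtain ⟨φ, hφ⟩ : ∃ φ : V →ₗ[ZMod 2] ZMod 2, φ v ≠ 0 := by
    by_contra hcon
    push Not at hcon
    exact hv ((Module.forall_dual_apply_eq_zero_iff (ZMod 2) v).1 hcon)
  have hφ1 : φ v = 1 := zmod2_ne_zero hφ
  -- the probability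
  obtain ⟨p, hp0, hp1, hpq⟩ : ∃ p : ℝ, 0 ≤ p ∧ p ≤ 1 ∧ 2 * p * (1 - p) = q := by
    refine ⟨(1 - √(1 - 2 * q)) / 2, ?_, ?_, ?_⟩
    · have : √(1 - 2 * q) ≤ 1 := by
        exact Real.sqrt_le_one.2 (by linarith)
      linarith
    · have := Real.sqrt_nonneg (1 - 2 * q)
      linarith
    · have := Real.mul_self_sqrt (show 0 ≤ 1 - 2 * q by linarith)
      nlinarith
  let I : Type := {x : V // φ x = 0}
  let ι : I → Bool → V := fun i b => if b then i.1 + v else i.1
  have hadd : ∀ y : V, φ y ≠ 0 → φ (y + v) = 0 := by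
    intro y hy
    rw [map_add, zmod2_ne_zero hy, hφ1]; rfl
  let π : V → I := fun y => if h : φ y = 0 then ⟨y, h⟩ else ⟨y + v, hadd y h⟩
  have hι : ∀ i, Function.Injective (ι i) := by
    intro i b c hbc
    cases b <;> cases c <;> simp only [ι, if_true, Bool.false_eq_true, if_false] at hbc ⊢
    · exact absurd (left_eq_add.1 hbc) hv
    · exact absurd (add_eq_left.1 hbc) hv
  have hπ : ∀ i b, π (ι i b) = i := by
    rintro ⟨x, hx⟩ b
    cases b
    · simp [π, ι, hx]
    · have : φ (x + v) ≠ 0 := by rw [map_add, hx, hφ1]; decide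
      simp only [π, ι, if_true, dif_neg this]
      congr 1
      exact add_add_self' x v
  have hsurj : ∀ x : V, ∃ i b, x = ι i b := by
    intro x
    by_cases h : φ x = 0
    · exact ⟨⟨x, h⟩, false, by simp [ι]⟩
    · exact ⟨⟨x + v, hadd x h⟩, true, by simp [ι, add_add_self']⟩
  refine ⟨par ι (fun _ => [(false, true, p)]), ?_, ?_, ?_⟩
  · apply par_valid hι
    intro i e he
    rw [List.mem_singleton] at he
    subst he
    exact ⟨by simp, hp0, hp1⟩
  · rw [par_length]
    simp only [List.length_singleton, Finset.sum_const, Finset.card_univ, smul_eq_mul, mul_one]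
    exact Fintype.card_subtype_le _
  · intro g x y hxy
    obtain ⟨i, b, rfl⟩ := hsurj x
    obtain ⟨j, c, rfl⟩ := hsurj y
    have hflip : ∀ (i : I) (b : Bool), ι i (!b) = ι i b + v := by
      intro i b
      cases b
      · simp [ι]
      · simp [ι, add_add_self']
    by_cases hij : i = j
    · subst hij
      have hbc : b ≠ c := by rintro rfl; exact hxy rfl
      have hc : c = !b := by
        have hb : ∀ b c : Bool, b ≠ c → c = !b := by decide
        exact hb b c hbc
      subst hc
      rw [op2_par_same hι hπ, op2_bool]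
      have h1 : ι i b + ι i (!b) = v := by
        rw [hflip, ← add_assoc, add_self', zero_add]
      have h2 : ι i (!b) + ι i (!(!b)) = v := by
        rw [Bool.not_not, add_comm]; exact h1
      rw [h1, h2]
      simp only [stepOp, or_true, if_true]
      ring
    · rw [op2_par_diff hι hπ _ _ hij, op1_bool, op1_bool, op1_bool, hflip, hflip]
      have hD0 : ι i b + ι j c ≠ 0 := by
        intro h
        apply hxy
        have : ι i b + ι j c + ι j c = 0 + ι j c := by rw [h]
        rwa [add_add_self', zero_add] at this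
      have hDv : ι i b + ι j c ≠ v := by
        intro h
        apply hij
        have h1 : ι i b = ι j (!c) := by
          rw [hflip, ← h, show ι j c + (ι i b + ι j c) = ι i b + ι j c + ι j c by abel,
            add_add_self']
        rw [← hπ i b, h1, hπ]
      unfold stepOp
      rw [if_neg (by push Not; exact ⟨hD0, hDv⟩)]
      have e1 : ι i b + (ι j c + v) = ι i b + ι j c + v := by rw [add_assoc]
      have e2 : ι i b + v + ι j c = ι i b + ι j c + v := by abel
      have e3 : ι i b + v + (ι j c + v) = ι i b + ι j c := by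
        rw [show ι i b + v + (ι j c + v) = ι i b + ι j c + v + v by abel, add_add_self']
      rw [e1, e2, e3, ← hpq]
      ring

lemma exists_layers (s : List (V × ℝ)) (hs : ∀ a ∈ s, a.1 ≠ 0 ∧ 0 ≤ a.2 ∧ a.2 ≤ 1 / 2) :
    ∃ L : Net V, Valid L ∧ L.length ≤ s.length * Fintype.card V ∧ ∀ (g : V → ℝ) (x y : V),
      x ≠ y → op2 L (fun x y => g (x + y)) x y = run s g (x + y) := by
  induction s with
  | nil => exact ⟨[], valid_nil, by simp, fun g x y _ => rfl⟩
  | cons a s ih =>
    obtain ⟨L, hV, hlen, h⟩ := ih (fun a ha => hs a (by simp [ha]))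
    obtain ⟨ha0, ha1, ha2⟩ := hs a (by simp)
    obtain ⟨M, hMV, hMlen, hM⟩ := exists_layer ha0 ha1 ha2
    refine ⟨M ++ L, hMV.append hV, ?_, ?_⟩
    · rw [List.length_append, List.length_cons, Nat.add_mul, one_mul]
      omega
    · intro g x y hxy
      rw [op2_append, op2_congr_off M (fun x y hxy => h g x y hxy) hxy, hM (run s g) x y hxy]
      rfl

/-- killing a function of the difference -/
theorem exists_X {k : ℕ} (hk : Fintype.card V ≤ 2 ^ k) (g : V → ℝ) :
    ∃ L : Net V, Valid L ∧ L.length ≤ 2 * k * 2 ^ k ∧ ∃ c, ∀ x y : V, x ≠ y →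
      op2 L (fun x y => g (x + y)) x y = c := by
  by_cases hcard : Fintype.card V ≤ 1
  · refine ⟨[], valid_nil, by simp, 0, fun x y hxy => ?_⟩
    exact absurd ((Fintype.card_le_one_iff.1 hcard) x y) hxy
  · push Not at hcard
    set c : ℝ := ((∑ D, g D) - g 0) / ((Fintype.card V : ℝ) - 1) with hc
    have hcv : ((Fintype.card V : ℝ) - 1) ≠ 0 := by
      have : (1 : ℝ) < (Fintype.card V : ℝ) := by exact_mod_cast hcard
      linarith
    have hsum : ∑ D ∈ (Finset.univ : Finset V), (g D - c) = g 0 - c := by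
      rw [Finset.sum_sub_distrib, Finset.sum_const, Finset.card_univ, nsmul_eq_mul]
      have : c * ((Fintype.card V : ℝ) - 1) = (∑ D, g D) - g 0 := by
        rw [hc]; field_simp
      linarith
    obtain ⟨s, hlen, hval, hkill, -⟩ := kill k (Finset.univ : Finset V) (Finset.mem_univ _)
      (fun _ _ _ _ => Finset.mem_univ _) (by rw [Finset.card_univ]; exact hk)
      (fun D => g D - c) hsum
    obtain ⟨L, hV, hLlen, hL⟩ := exists_layers s hval
    refine ⟨L, hV, hLlen.trans (Nat.mul_le_mul hlen hk), c, fun x y hxy => ?_⟩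
    have h1 := hL (fun D => g D - c) x y hxy
    have hxy0 : x + y ≠ 0 := by
      intro h
      apply hxy
      have : x + y + y = 0 + y := by rw [h]
      rwa [add_add_self', zero_add] at this
    rw [hkill _ (Finset.mem_univ _) hxy0] at h1
    have h2 : op2 L (fun x y => g (x + y)) x y
        = op2 L (fun x y => (g (x + y) - c) + c) x y := by
      simp
    rw [h2, op2_add, h1, op2_const, zero_add]

end layer

/-- the mixing network for the same-row function -/
theorem exists_X_prod {Z Y : Type} [AddCommGroup Z] [Module (ZMod 2) Z] [DecidableEq Z]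
    [Fintype Z] [AddCommGroup Y] [Module (ZMod 2) Y] [DecidableEq Y] [Fintype Y] {k : ℕ}
    (hk : Fintype.card (Z × Y) ≤ 2 ^ k) :
    ∃ L : Net (Z × Y), Valid L ∧ L.length ≤ 2 * k * 2 ^ k ∧ ∃ c, ∀ x y : Z × Y, x ≠ y →
      op2 L sameRow x y = c := by
  obtain ⟨L, hV, hlen, c, hc⟩ := exists_X hk (fun D : Z × Y => if D.1 = 0 then 1 else 0)
  refine ⟨L, hV, hlen, c, fun x y hxy => ?_⟩
  rw [← hc x y hxy]
  congr 1
  funext x y
  unfold sameRow
  have : (x + y).1 = 0 ↔ x.1 = y.1 := by
    rw [Prod.fst_add]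
    constructor
    · intro h
      have : x.1 + y.1 + y.1 = 0 + y.1 := by rw [h]
      rwa [add_add_self', zero_add] at this
    · intro h
      rw [h, add_self']
  simp only [this]

end Pool.Agent.Lib.MP_2f8515_co
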