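import Pool.Agent.Lib.MP_2f8515_co.Bridge

/-!
# The entropy lower bound
-/

set_option linter.unusedSectionVars false

namespace Pool.Agent.Lib.MP_2f8515_co

open Equiv MeasureTheory

section ent
variable {α : Type} [DecidableEq α] [Fintype α]

/-- transition probability `P(σ x = y)` -/
noncomputable def pr (L : Net α) (x y : α) : ℝ := op1 L (fun z => if z = y then 1 else 0) x

lemma op1_nonneg {L : Net α} (hL : Valid L) {g : α → ℝ} (hg : ∀ x, 0 ≤ g x) (x : α) :
    0 ≤ op1 L g x := by
  induction L generalizing x with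
  | nil => exact hg x
  | cons e L ih =>
    obtain ⟨he, hL'⟩ := hL.cons
    rw [op1_cons]
    have h1 := ih hL' x
    have h2 := ih hL' (swap e.1 e.2.1 x)
    have h3 : 0 ≤ 1 - e.2.2 := by linarith [he.2.2]
    have h4 := he.2.1
    positivity

lemma pr_nonneg {L : Net α} (hL : Valid L) (x y : α) : 0 ≤ pr L x y :=
  op1_nonneg hL (fun z => by split_ifs <;> norm_num) x

lemma sum_pr (L : Net α) (x : α) : ∑ y, pr L x y = 1 := by
  induction L generalizing x with
  | nil => simp [pr]
  | cons e L ih =>
    have h1 : ∀ y, pr (e :: L) x y = (1 - e.2.2) * pr L x y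
        + e.2.2 * pr L (swap e.1 e.2.1 x) y := fun y => rfl
    simp only [h1]
    rw [Finset.sum_add_distrib, ← Finset.mul_sum, ← Finset.mul_sum, ih, ih]
    ring

/-- two-point entropy inequality -/
lemma two_point {u v p : ℝ} (hu : 0 ≤ u) (hv : 0 ≤ v) (hp0 : 0 ≤ p) (hp1 : p ≤ 1) :
    Real.negMulLog ((1 - p) * u + p * v) + Real.negMulLog ((1 - p) * v + p * u)
      ≤ Real.negMulLog u + Real.negMulLog v + (u + v) * Real.log 2 := by
  rcases eq_or_lt_of_le hu with hu0 | hu0
  · rcases eq_or_lt_of_le hv with hv0 | hv0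
    · subst hu0 hv0; simp
    · -- u = 0 < v
      subst hu0
      have hconc := Real.concaveOn_negMulLog.2 (x := (1 - p) * 0 + p * v) (y := (1 - p) * v + p * 0)
        (by simp only [Set.mem_Ici]; positivity)
        (by simp only [Set.mem_Ici]; have : 0 ≤ 1 - p := by linarith
            positivity) (by norm_num : (0:ℝ) ≤ 1/2)
        (by norm_num : (0:ℝ) ≤ 1/2) (by norm_num)
      simp only [smul_eq_mul] at hconc
      have e1 : 1 / 2 * ((1 - p) * 0 + p * v) + 1 / 2 * ((1 - p) * v + p * 0) = v / 2 := by ring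
      rw [e1] at hconc
      have e2 : Real.negMulLog (v / 2) = (Real.negMulLog v + v * Real.log 2) / 2 := by
        unfold Real.negMulLog
        rw [Real.log_div hv0.ne' (by norm_num)]; ring
      rw [e2] at hconc
      simp only [Real.negMulLog_zero, zero_add] at hconc ⊢
      linarith
  · have huv : 0 < u + v := by linarith
    have h1p : 0 ≤ 1 - p := by linarith
    have hconc := Real.concaveOn_negMulLog.2 (x := (1 - p) * u + p * v) (y := (1 - p) * v + p * u)
        (by simp only [Set.mem_Ici]; positivity)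
        (by simp only [Set.mem_Ici]; positivity) (by norm_num : (0:ℝ) ≤ 1/2)
        (by norm_num : (0:ℝ) ≤ 1/2) (by norm_num)
    simp only [smul_eq_mul] at hconc
    have e1 : 1 / 2 * ((1 - p) * u + p * v) + 1 / 2 * ((1 - p) * v + p * u) = (u + v) / 2 := by ring
    rw [e1] at hconc
    have e2 : Real.negMulLog ((u + v) / 2)
        = (-(u + v) * Real.log (u + v) + (u + v) * Real.log 2) / 2 := by
      unfold Real.negMulLog
      rw [Real.log_div huv.ne' (by norm_num)]; ring
    rw [e2] at hconc
    have e3 : -(u + v) * Real.log (u + v) ≤ Real.negMulLog u + Real.negMulLog v := by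
      have a1 : u * Real.log u ≤ u * Real.log (u + v) :=
        mul_le_mul_of_nonneg_left (Real.log_le_log hu0 (by linarith)) hu
      have a2 : v * Real.log v ≤ v * Real.log (u + v) := by
        rcases eq_or_lt_of_le hv with hv0 | hv0
        · rw [← hv0]; simp
        · exact mul_le_mul_of_nonneg_left (Real.log_le_log hv0 (by linarith)) hv
      unfold Real.negMulLog
      linarith
    linarith

/-- total entropy -/
noncomputable def ent (L : Net α) : ℝ := ∑ x, ∑ y, Real.negMulLog (pr L x y)

lemma ent_cons {e : α × α × ℝ} {L : Net α} (hL : Valid (e :: L)) :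
    ent (e :: L) ≤ ent L + 2 * Real.log 2 := by
  obtain ⟨⟨hab, hp0, hp1⟩, hV⟩ := hL.cons
  set s := swap e.1 e.2.1 with hs
  set R : α → ℝ := fun x => ∑ y, Real.negMulLog (pr (e :: L) x y) with hR
  set Q : α → ℝ := fun x => ∑ y, Real.negMulLog (pr L x y) with hQ
  have h1 : ∀ x y, pr (e :: L) x y = (1 - e.2.2) * pr L x y + e.2.2 * pr L (s x) y :=
    fun x y => rfl
  have hss : ∀ x, s (s x) = x := fun x => by rw [hs, swap_apply_self]
  -- pointwise bound
  have hpt : ∀ x, R x + R (s x) ≤ Q x + Q (s x)
      + if (x = e.1 ∨ x = e.2.1) then 2 * Real.log 2 else 0 := by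
    intro x
    split_ifs with hx
    · have h2 : ∀ y, Real.negMulLog (pr (e :: L) x y) + Real.negMulLog (pr (e :: L) (s x) y)
          ≤ Real.negMulLog (pr L x y) + Real.negMulLog (pr L (s x) y)
            + (pr L x y + pr L (s x) y) * Real.log 2 := by
        intro y
        rw [h1, h1, hss]
        exact two_point (pr_nonneg hV _ _) (pr_nonneg hV _ _) hp0 hp1
      have h3 := Finset.sum_le_sum (fun y (_ : y ∈ Finset.univ) => h2 y)
      rw [Finset.sum_add_distrib, Finset.sum_add_distrib, Finset.sum_add_distrib,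
        ← Finset.sum_mul, Finset.sum_add_distrib, sum_pr, sum_pr] at h3
      simp only [hR, hQ]
      linarith
    · push Not at hx
      have hsx : s x = x := swap_apply_of_ne_of_ne hx.1 hx.2
      have h2 : ∀ y, pr (e :: L) x y = pr L x y := by
        intro y; rw [h1, hsx]; ring
      rw [hsx]
      simp only [hR, hQ, h2]
      linarith
  have h4 := Finset.sum_le_sum (fun x (_ : x ∈ Finset.univ) => hpt x)
  rw [Finset.sum_add_distrib, Finset.sum_add_distrib, Finset.sum_add_distrib,
    Equiv.sum_comp s R, Equiv.sum_comp s Q] at h4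
  have h5 : ∑ x, (if (x = e.1 ∨ x = e.2.1) then 2 * Real.log 2 else 0) = 4 * Real.log 2 := by
    rw [← Finset.sum_filter]
    have : Finset.univ.filter (fun x => x = e.1 ∨ x = e.2.1) = {e.1, e.2.1} := by
      ext x; simp
    rw [this, Finset.sum_pair hab]; ring
  rw [h5] at h4
  have h6 : ent (e :: L) = ∑ x, R x := rfl
  have h7 : ent L = ∑ x, Q x := rfl
  rw [h6, h7]
  linarith

lemma ent_le {L : Net α} (hL : Valid L) : ent L ≤ 2 * Real.log 2 * L.length := by
  induction L with
  | nil =>
    have h : ∀ x y : α, Real.negMulLog (pr ([] : Net α) x y) = 0 := by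
      intro x y
      simp only [pr, op1_nil]
      split_ifs <;> simp
    simp [ent, h]
  | cons e L ih =>
    have h1 := ent_cons hL
    have h2 := ih hL.cons.2
    rw [List.length_cons]
    push_cast
    linarith

end ent

lemma lower_aux {n : ℕ} (hn : 2 ≤ n) {L : Net (Fin n)} (hL : Valid L)
    (h : ∀ x₁ x₂ y₁ y₂ : Fin n, x₁ ≠ x₂ → y₁ ≠ y₂ →
      op2 L (dlt y₁ y₂) x₁ x₂ = 1 / ((n : ℝ) * ((n : ℝ) - 1))) :
    (n : ℝ) * Real.log n ≤ 2 * Real.log 2 * L.length := by
  have hn' : (2 : ℝ) ≤ n := by exact_mod_cast hn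
  have hpr : ∀ x y : Fin n, pr L x y = 1 / n := by
    intro x y
    haveI : Nontrivial (Fin n) := Fin.nontrivial_iff_two_le.2 hn
    obtain ⟨x', hx'⟩ := exists_ne x
    unfold pr
    rw [← op2_fst L _ x x']
    have h1 : ∀ u v : Fin n, u ≠ v → (if u = y then (1:ℝ) else 0)
        = ∑ y' ∈ Finset.univ.erase y, dlt y y' u v := by
      intro u v huv
      unfold dlt
      by_cases hu : u = y
      · subst hu
        simp only [true_and, if_true]
        rw [Finset.sum_ite_eq]
        simp [Ne.symm huv]
      · simp [hu]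
    rw [op2_congr_off L h1 hx'.symm, op2_sum]
    rw [Finset.sum_congr rfl (fun y' hy' => h x x' y y' hx'.symm
      (Ne.symm (Finset.ne_of_mem_erase hy'))), Finset.sum_const,
      Finset.card_erase_of_mem (Finset.mem_univ _), Finset.card_univ, Fintype.card_fin,
      nsmul_eq_mul, Nat.cast_sub (by omega)]
    have e1 : (n : ℝ) ≠ 0 := by linarith
    have e2 : (n : ℝ) - 1 ≠ 0 := by linarith
    push_cast
    field_simp
  have h2 := ent_le hL
  have h3 : ent L = n * Real.log n := by
    unfold ent
    simp only [hpr, Finset.sum_const, Finset.card_univ, Fintype.card_fin, nsmul_eq_mul]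
    unfold Real.negMulLog
    rw [one_div, Real.log_inv]
    have e1 : (n : ℝ) ≠ 0 := by linarith
    field_simp
  rw [h3] at h2
  exact h2

theorem lower {n l : ℕ} (hn : 2 ≤ n) (T : Fin l → LazyTransposition n)
    (hT : IsStrongTwoShuffle T) : (1 / 2) * n * Real.logb 2 n ≤ l := by
  have hV : Valid (List.ofFn fun i => trip (T i)).reverse := by
    intro e he
    rw [List.mem_reverse] at he
    exact valid_trip T e he
  have h1 := lower_aux hn hV ((isStrong_iff T).1 hT)
  rw [List.length_reverse, List.length_ofFn] at h1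
  have h2 : 0 < Real.log 2 := Real.log_pos (by norm_num)
  unfold Real.logb
  rw [mul_div_assoc', div_le_iff₀ h2]
  linarith

end Pool.Agent.Lib.MP_2f8515_co
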