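import Pool.Agent.Lib.MP_2f8515_co.Layer

/-!
# Strong 2-shuffles of `2 ^ k` points with `O(k 2 ^ k)` lazy transpositions
-/

set_option linter.unusedSectionVars false

namespace Pool.Agent.Lib.MP_2f8515_co

open Equiv

/-- existence of a class structure -/
def BFex (α : Type) [DecidableEq α] (m c : ℕ) : Prop :=
  ∃ (I : Type) (_ : Fintype I) (A : Net α) (cls : α → α → I),
    BF A cls ∧ Fintype.card I ≤ m ∧ A.length ≤ c

lemma BFex.transport {α β : Type} [DecidableEq α] [DecidableEq β] (e : α ≃ β) {m c : ℕ}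
    (h : BFex α m c) : BFex β m c := by
  obtain ⟨I, hI, A, cls, hBF, hm, hc⟩ := h
  refine ⟨I, hI, mapNet e A, fun x y => cls (e.symm x) (e.symm y), ⟨?_, ?_, ?_⟩, hm, ?_⟩
  · exact mapNet_valid e.injective hBF.valid
  · intro g x x'
    have h1 := hBF.uni (fun a => g (e a)) (e.symm x) (e.symm x')
    rw [← op1_mapNet e.injective, ← op1_mapNet e.injective] at h1
    simpa using h1
  · intro f x y x' y' hxy hxy' hc
    have h1 := hBF.cl (fun a b => f (e a) (e b)) (e.symm x) (e.symm y) (e.symm x') (e.symm y')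
      (fun h => hxy (e.symm.injective h)) (fun h => hxy' (e.symm.injective h)) hc
    rw [← op2_mapNet e.injective, ← op2_mapNet e.injective] at h1
    simpa using h1
  · rw [mapNet_length]; exact hc

lemma strong_bool : Strong2 ([(false, true, 1 / 2)] : Net Bool) := by
  intro f x y x' y' hxy hxy'
  rw [op2_bool, op2_bool]
  cases x <;> cases y <;> cases x' <;> cases y' <;> simp at hxy hxy' ⊢ <;> ring

lemma valid_bool : Valid ([(false, true, 1 / 2)] : Net Bool) := by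
  intro e he
  rw [List.mem_singleton] at he
  subst he
  norm_num

lemma BFex_pow (k : ℕ) : ∀ (α : Type) [DecidableEq α] [Fintype α],
    Fintype.card α = 2 ^ (k + 1) → BFex α (k + 1) ((k + 1) * 2 ^ (k + 1)) := by
  induction k with
  | zero =>
    intro α _ _ hα
    have e : Bool ≃ α := Fintype.equivOfCardEq (by rw [hα]; rfl)
    apply BFex.transport e
    refine ⟨Unit, inferInstance, [(false, true, 1 / 2)], fun _ _ => (),
      ⟨valid_bool, strong_bool.strong1, ?_⟩, by simp, by simp⟩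
    intro f x y x' y' hxy hxy' _
    exact strong_bool f x y x' y' hxy hxy'
  | succ k ih =>
    intro α _ _ hα
    have e : Bool × Fin (2 ^ (k + 1)) ≃ α := Fintype.equivOfCardEq (by
      rw [hα, Fintype.card_prod, Fintype.card_bool, Fintype.card_fin]; ring)
    apply BFex.transport e
    obtain ⟨I, hI, A, cls, hBF, hm, hc⟩ := ih (Fin (2 ^ (k + 1))) (by simp)
    obtain ⟨I', hI', A', cls', hBF', hm', hc'⟩ :
        BFex Bool 1 1 := ⟨Unit, inferInstance, [(false, true, 1 / 2)], fun _ _ => (),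
      ⟨valid_bool, strong_bool.strong1, fun f x y x' y' hxy hxy' _ =>
        strong_bool f x y x' y' hxy hxy'⟩, by simp, by simp⟩
    refine ⟨I' ⊕ I, inferInstance, _, _, hBF'.prod hBF, ?_, ?_⟩
    · rw [Fintype.card_sum]; omega
    · rw [List.length_append, col, row, par_length, par_length]
      simp only [Finset.sum_const, Finset.card_univ, Fintype.card_fin, Fintype.card_bool,
        smul_eq_mul]
      calc 2 ^ (k + 1) * A'.length + 2 * A.length
          ≤ 2 ^ (k + 1) * 1 + 2 * ((k + 1) * 2 ^ (k + 1)) :=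
            Nat.add_le_add (Nat.mul_le_mul_left _ hc') (Nat.mul_le_mul_left _ hc)
        _ ≤ (k + 1 + 1) * 2 ^ (k + 1 + 1) := by
            rw [pow_succ 2 (k + 1)]
            nlinarith [Nat.pos_of_ne_zero (pow_ne_zero (k + 1) (two_ne_zero : (2:ℕ) ≠ 0))]

/-- vector spaces over `ZMod 2` -/
abbrev FV (k : ℕ) : Type := Fin k → ZMod 2

lemma card_FV (k : ℕ) : Fintype.card (FV k) = 2 ^ k := by
  simp [FV, ZMod.card]

lemma strong_step {k1 k2 c1 c2 : ℕ} (h1 : 1 ≤ k1) (h2 : 1 ≤ k2)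
    (H1 : HasStrong (Fin (2 ^ k1)) c1) (H2 : HasStrong (Fin (2 ^ k2)) c2) :
    HasStrong (Fin (2 ^ (k1 + k2))) (4 * (k1 + k2) * 2 ^ (k1 + k2) + 2 ^ k2 * c1
      + (k1 + k2) ^ 2 * c2) := by
  have e1 : Fin (2 ^ k1) ≃ FV k1 := Fintype.equivOfCardEq (by rw [card_FV, Fintype.card_fin])
  have e2 : Fin (2 ^ k2) ≃ FV k2 := Fintype.equivOfCardEq (by rw [card_FV, Fintype.card_fin])
  have e3 : FV k2 × FV k1 ≃ Fin (2 ^ (k1 + k2)) := Fintype.equivOfCardEq (by
    rw [Fintype.card_prod, card_FV, card_FV, Fintype.card_fin, pow_add, mul_comm])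
  obtain ⟨MY, hMYV, hMYl, hMY⟩ := H1.transport e1
  obtain ⟨MZ, hMZV, hMZl, hMZ⟩ := H2.transport e2
  obtain ⟨j1, rfl⟩ : ∃ j, k1 = j + 1 := ⟨k1 - 1, by omega⟩
  obtain ⟨j2, rfl⟩ : ∃ j, k2 = j + 1 := ⟨k2 - 1, by omega⟩
  obtain ⟨IY, _, AY, cY, hBFY, hmY, hcY⟩ := BFex_pow j1 (FV (j1 + 1)) (card_FV _)
  obtain ⟨IZ, _, AZ, cZ, hBFZ, hmZ, hcZ⟩ := BFex_pow j2 (FV (j2 + 1)) (card_FV _)
  have hcard : Fintype.card (FV (j2 + 1) × FV (j1 + 1)) ≤ 2 ^ ((j1 + 1) + (j2 + 1)) := by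
    rw [Fintype.card_prod, card_FV, card_FV, ← pow_add, add_comm]
  obtain ⟨X, hXV, hXl, hX⟩ := exists_X_prod hcard
  have key := main_step hBFZ hBFY hXV hX hMYV hMY hMZV hMZ
  refine (key.transport e3).mono ?_
  rw [card_FV, card_FV]
  have i1 : 2 ^ (j1 + 1) * AZ.length ≤ (j2 + 1) * 2 ^ ((j1 + 1) + (j2 + 1)) := by
    calc 2 ^ (j1 + 1) * AZ.length ≤ 2 ^ (j1 + 1) * ((j2 + 1) * 2 ^ (j2 + 1)) :=
          Nat.mul_le_mul_left _ hcZ
      _ = _ := by rw [pow_add 2 (j1 + 1) (j2 + 1)]; ring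
  have i2 : 2 ^ (j2 + 1) * AY.length ≤ (j1 + 1) * 2 ^ ((j1 + 1) + (j2 + 1)) := by
    calc 2 ^ (j2 + 1) * AY.length ≤ 2 ^ (j2 + 1) * ((j1 + 1) * 2 ^ (j1 + 1)) :=
          Nat.mul_le_mul_left _ hcY
      _ = _ := by rw [pow_add 2 (j1 + 1) (j2 + 1)]; ring
  have i3 : 2 ^ (j2 + 1) * MY.length ≤ 2 ^ (j2 + 1) * c1 := Nat.mul_le_mul_left _ hMYl
  have i4 : (Fintype.card IZ + Fintype.card IY) ^ 2 * MZ.length
      ≤ ((j1 + 1) + (j2 + 1)) ^ 2 * c2 :=
    Nat.mul_le_mul (Nat.pow_le_pow_left (by omega) 2) hMZl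
  calc 2 * (2 ^ (j1 + 1) * AZ.length + 2 ^ (j2 + 1) * AY.length) + X.length
        + 2 ^ (j2 + 1) * MY.length + (Fintype.card IZ + Fintype.card IY) ^ 2 * MZ.length
      ≤ 2 * ((j2 + 1) * 2 ^ ((j1 + 1) + (j2 + 1)) + (j1 + 1) * 2 ^ ((j1 + 1) + (j2 + 1)))
        + 2 * ((j1 + 1) + (j2 + 1)) * 2 ^ ((j1 + 1) + (j2 + 1))
        + 2 ^ (j2 + 1) * c1 + ((j1 + 1) + (j2 + 1)) ^ 2 * c2 :=
        Nat.add_le_add (Nat.add_le_add (Nat.add_le_add
          (Nat.mul_le_mul_left _ (Nat.add_le_add i1 i2)) hXl) i3) i4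
    _ = _ := by ring

lemma exists_strong (k : ℕ) : 1 ≤ k → ∃ c, HasStrong (Fin (2 ^ k)) c := by
  induction k using Nat.strong_induction_on with
  | _ k ih =>
    intro hk
    by_cases h1 : k = 1
    · subst h1
      refine ⟨1, ?_⟩
      have e : Bool ≃ Fin (2 ^ 1) := Fintype.equivOfCardEq (by simp)
      exact HasStrong.transport e ⟨_, valid_bool, by simp, strong_bool⟩
    · obtain ⟨c1, H1⟩ := ih (k - k / 2) (by omega) (by omega)
      obtain ⟨c2, H2⟩ := ih (k / 2) (by omega) (by omega)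
      have h := strong_step (by omega) (by omega) H1 H2
      rw [show k - k / 2 + k / 2 = k by omega] at h
      exact ⟨_, h⟩

lemma pow_bound (m : ℕ) (hm : 10 ≤ m) : 8 * m ^ 2 ≤ 2 ^ m := by
  induction m, hm using Nat.le_induction with
  | base => norm_num
  | succ m hm ih =>
    have h2 : 2 ^ (m + 1) = 2 * 2 ^ m := by ring
    rw [h2]
    nlinarith

theorem strong_pow : ∃ C : ℕ, ∀ k : ℕ, 1 ≤ k → HasStrong (Fin (2 ^ k)) (C * k * 2 ^ k) := by
  choose! c hc using exists_strong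
  refine ⟨32 + ∑ i ∈ Finset.range 20, c i, ?_⟩
  set C := 32 + ∑ i ∈ Finset.range 20, c i with hC
  intro k
  induction k using Nat.strong_induction_on with
  | _ k ih =>
    intro hk
    by_cases hk20 : k < 20
    · refine (hc k hk).mono ?_
      have h1 : c k ≤ ∑ i ∈ Finset.range 20, c i :=
        Finset.single_le_sum (f := c) (fun _ _ => Nat.zero_le _) (Finset.mem_range.2 hk20)
      have h2 : 1 ≤ 2 ^ k := Nat.one_le_two_pow
      calc c k ≤ C := by omega
        _ = C * 1 * 1 := by ring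
        _ ≤ C * k * 2 ^ k := Nat.mul_le_mul (Nat.mul_le_mul_left _ hk) h2
    · push Not at hk20
      have H1 := ih (k - k / 2) (by omega) (by omega)
      have H2 := ih (k / 2) (by omega) (by omega)
      have h := strong_step (by omega) (by omega) H1 H2
      obtain ⟨k1, hk1⟩ : ∃ k1, k1 = k - k / 2 := ⟨_, rfl⟩
      obtain ⟨k2, hk2⟩ : ∃ k2, k2 = k / 2 := ⟨_, rfl⟩
      rw [← hk1, ← hk2] at h
      have hsum : k1 + k2 = k := by omega
      rw [hsum] at h
      refine h.mono ?_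
      have hk1' : k ≤ 2 * k1 := by omega
      have hk2' : k ≤ 4 * k2 := by omega
      have hb : 2 * k ^ 2 ≤ 2 ^ k1 := by
        have := pow_bound k1 (by omega)
        nlinarith
      have hpow : 2 ^ k = 2 ^ k1 * 2 ^ k2 := by rw [← hsum, pow_add]
      have hC32 : 32 ≤ C := by omega
      -- the three parts, doubled
      have p1 : 2 * (4 * k * 2 ^ k) ≤ C * k2 * 2 ^ k := by
        have : 8 * k ≤ C * k2 := by nlinarith
        calc 2 * (4 * k * 2 ^ k) = 8 * k * 2 ^ k := by ring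
          _ ≤ C * k2 * 2 ^ k := Nat.mul_le_mul_right _ this
      have p2 : 2 ^ k2 * (C * k1 * 2 ^ k1) = C * k1 * 2 ^ k := by rw [hpow]; ring
      have p3 : 2 * (k ^ 2 * (C * k2 * 2 ^ k2)) ≤ C * k2 * 2 ^ k := by
        calc 2 * (k ^ 2 * (C * k2 * 2 ^ k2)) = (2 * k ^ 2) * (C * k2 * 2 ^ k2) := by ring
          _ ≤ 2 ^ k1 * (C * k2 * 2 ^ k2) := Nat.mul_le_mul_right _ hb
          _ = C * k2 * 2 ^ k := by rw [hpow]; ring
      have p4 : C * k * 2 ^ k = C * k1 * 2 ^ k + C * k2 * 2 ^ k := by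
        rw [← hsum]; ring
      rw [p2, p4]
      omega

end Pool.Agent.Lib.MP_2f8515_co
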