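import Pool.Agent.Lib.MP_2f8515_co.LP

/-!
# Product constructions
-/

set_option linter.unusedSectionVars false

namespace Pool.Agent.Lib.MP_2f8515_co

open Equiv

section colrow
variable {Z Y : Type} [DecidableEq Z] [DecidableEq Y] [Fintype Z] [Fintype Y]

/-- networks on the columns -/
noncomputable def col (M : Y → Net Z) : Net (Z × Y) := par (fun y z => (z, y)) M

/-- networks on the rows -/
noncomputable def row (M : Z → Net Y) : Net (Z × Y) := par (fun z y => (z, y)) M

lemma inj_col (y : Y) : Function.Injective (fun z : Z => (z, y)) := by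
  intro a b h; exact congrArg Prod.fst h

lemma inj_row (z : Z) : Function.Injective (fun y : Y => (z, y)) := by
  intro a b h; exact congrArg Prod.snd h

lemma col_valid {M : Y → Net Z} (h : ∀ y, Valid (M y)) : Valid (col M) :=
  par_valid (ι := fun y z => (z, y)) (inj_col) h

lemma row_valid {M : Z → Net Y} (h : ∀ z, Valid (M z)) : Valid (row M) :=
  par_valid (ι := fun z y => (z, y)) (inj_row) h

lemma op1_col (M : Y → Net Z) (g : Z × Y → ℝ) (z : Z) (y : Y) :
    op1 (col M) g (z, y) = op1 (M y) (fun c => g (c, y)) z :=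
  op1_par (π := Prod.snd) (ι := fun y z => (z, y)) (inj_col) (fun _ _ => rfl) M g y z

lemma op2_col_same (M : Y → Net Z) (f : Z × Y → Z × Y → ℝ) (z z' : Z) (y : Y) :
    op2 (col M) f (z, y) (z', y) = op2 (M y) (fun c d => f (c, y) (d, y)) z z' :=
  op2_par_same (π := Prod.snd) (ι := fun y z => (z, y)) (inj_col) (fun _ _ => rfl) M f y z z'

lemma op2_col_diff (M : Y → Net Z) (f : Z × Y → Z × Y → ℝ) (z z' : Z) {y y' : Y} (h : y ≠ y') :
    op2 (col M) f (z, y) (z', y')
      = op1 (M y) (fun c => op1 (M y') (fun d => f (c, y) (d, y')) z') z :=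
  op2_par_diff (π := Prod.snd) (ι := fun y z => (z, y)) (inj_col) (fun _ _ => rfl) M f h z z'

lemma op1_row (M : Z → Net Y) (g : Z × Y → ℝ) (z : Z) (y : Y) :
    op1 (row M) g (z, y) = op1 (M z) (fun b => g (z, b)) y :=
  op1_par (π := Prod.fst) (ι := fun z y => (z, y)) (inj_row) (fun _ _ => rfl) M g z y

lemma op2_row_same (M : Z → Net Y) (f : Z × Y → Z × Y → ℝ) (z : Z) (y y' : Y) :
    op2 (row M) f (z, y) (z, y') = op2 (M z) (fun a b => f (z, a) (z, b)) y y' :=
  op2_par_same (π := Prod.fst) (ι := fun z y => (z, y)) (inj_row) (fun _ _ => rfl) M f z y y'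

lemma op2_row_diff (M : Z → Net Y) (f : Z × Y → Z × Y → ℝ) {z z' : Z} (y y' : Y) (h : z ≠ z') :
    op2 (row M) f (z, y) (z', y')
      = op1 (M z) (fun a => op1 (M z') (fun b => f (z, a) (z', b)) y') y :=
  op2_par_diff (π := Prod.fst) (ι := fun z y => (z, y)) (inj_row) (fun _ _ => rfl) M f h y y'

end colrow

/-- `op2 A f` depends only on the class -/
structure BF {α I : Type} [DecidableEq α] (A : Net α) (cls : α → α → I) : Prop where
  valid : Valid A
  uni : Strong1 A
  cl : ∀ (f : α → α → ℝ) (x y x' y' : α), x ≠ y → x' ≠ y' → cls x y = cls x' y' →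
    op2 A f x y = op2 A f x' y'

section prod
variable {Z Y IZ IY : Type} [DecidableEq Z] [DecidableEq Y] [Fintype Z] [Fintype Y]

/-- class function of a product -/
def pcls (cZ : Z → Z → IZ) (cY : Y → Y → IY) (x x' : Z × Y) : IZ ⊕ IY :=
  if x.2 = x'.2 then Sum.inl (cZ x.1 x'.1) else Sum.inr (cY x.2 x'.2)

lemma BF.prod {AZ : Net Z} {cZ : Z → Z → IZ} {AY : Net Y} {cY : Y → Y → IY}
    (hZ : BF AZ cZ) (hY : BF AY cY) :
    BF (col (fun _ : Y => AZ) ++ row (fun _ : Z => AY)) (pcls cZ cY) := by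
  refine ⟨(col_valid fun _ => hZ.valid).append (row_valid fun _ => hY.valid), ?_, ?_⟩
  · rintro g ⟨z, y⟩ ⟨z', y'⟩
    rw [op1_append, op1_col, op1_col]
    have : (fun c => op1 (row fun _ : Z => AY) g (c, y))
        = (fun c => op1 (row fun _ : Z => AY) g (c, y')) := by
      funext c
      rw [op1_row, op1_row]
      exact hY.uni _ _ _
    rw [this]
    exact hZ.uni _ _ _
  · intro f x1 x2 x1' x2' hne hne' hc
    obtain ⟨z1, y1⟩ := x1
    obtain ⟨z2, y2⟩ := x2
    obtain ⟨z1', y1'⟩ := x1'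
    obtain ⟨z2', y2'⟩ := x2'
    rw [op2_append]
    generalize hh : op2 (row fun _ : Z => AY) f = h
    have hrow1 : ∀ (z : Z) (a b a' b' : Y), a ≠ b → a' ≠ b' → cY a b = cY a' b' →
        h (z, a) (z, b) = h (z, a') (z, b') := by
      intro z a b a' b' hab hab' hc
      rw [← hh, op2_row_same, op2_row_same]
      exact hY.cl _ _ _ _ _ hab hab' hc
    have hrow2 : ∀ (z z' : Z) (a b a' b' : Y), z ≠ z' →
        h (z, a) (z', b) = h (z, a') (z', b') := by
      intro z z' a b a' b' hz
      rw [← hh, op2_row_diff _ _ _ _ hz, op2_row_diff _ _ _ _ hz]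
      rw [hY.uni _ a a']
      congr 1
      funext c
      exact hY.uni _ _ _
    by_cases hy : y1 = y2
    · by_cases hy' : y1' = y2'
      · subst hy hy'
        simp only [pcls, if_true, Sum.inl.injEq] at hc
        have hz : z1 ≠ z2 := fun h => hne (by rw [h])
        have hz' : z1' ≠ z2' := fun h => hne' (by rw [h])
        rw [op2_col_same, op2_col_same, hZ.cl _ _ _ _ _ hz hz' hc]
        apply op2_congr_off _ _ hz'
        intro c d hcd
        exact hrow2 _ _ _ _ _ _ hcd
      · simp [pcls, hy, hy'] at hc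
    · by_cases hy' : y1' = y2'
      · simp [pcls, hy, hy'] at hc
      · simp only [pcls, hy, hy', if_false, Sum.inr.injEq] at hc
        rw [op2_col_diff _ _ _ _ hy, op2_col_diff _ _ _ _ hy']
        rw [hZ.uni _ z1 z1']
        congr 1
        funext c
        rw [hZ.uni _ z2 z2']
        congr 1
        funext d
        by_cases hcd : c = d
        · subst hcd
          exact hrow1 _ _ _ _ _ hy hy' hc
        · exact hrow2 _ _ _ _ _ _ hcd

/-- the same-row indicator -/
noncomputable def sameRow (x x' : Z × Y) : ℝ := if x.1 = x'.1 then 1 else 0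

/-- X, then strong networks on rows, then strong networks on columns -/
lemma strong_XRK {X : Net (Z × Y)} (hX : ∃ c, ∀ x x' : Z × Y, x ≠ x' → op2 X sameRow x x' = c)
    {MY : Net Y} (hY : Strong2 MY) {MZ : Net Z} (hZ : Strong2 MZ) :
    Strong2 (X ++ (row (fun _ : Z => MY) ++ col (fun _ : Y => MZ))) := by
  obtain ⟨cX, hX⟩ := hX
  intro f x1 x2 x1' x2' hne hne'
  rw [op2_append, op2_append]
  generalize hk : op2 (col fun _ : Y => MZ) f = k
  have hk1 : ∀ (y y' : Y) (a b a' b' : Z), (a, y) ≠ (b, y') → (a', y) ≠ (b', y') →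
      k (a, y) (b, y') = k (a', y) (b', y') := by
    intro y y' a b a' b' h h'
    rw [← hk]
    by_cases hy : y = y'
    · subst hy
      rw [op2_col_same, op2_col_same]
      exact hZ _ _ _ _ _ (fun e => h (by rw [e])) (fun e => h' (by rw [e]))
    · rw [op2_col_diff _ _ _ _ hy, op2_col_diff _ _ _ _ hy, hZ.strong1 _ a a']
      congr 1
      funext c
      exact hZ.strong1 _ _ _
  generalize hl : op2 (row fun _ : Z => MY) k = l
  have hl1 : ∀ (z z' : Z) (a b a' b' : Y), a ≠ b → a' ≠ b' →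
      l (z, a) (z, b) = l (z', a') (z', b') := by
    intro z z' a b a' b' h h'
    rw [← hl, op2_row_same, op2_row_same, hY _ a b a' b' h h']
    apply op2_congr_off _ _ h'
    intro c d hcd
    apply hk1
    · intro e; exact hcd (congrArg Prod.snd e)
    · intro e; exact hcd (congrArg Prod.snd e)
  have hl2 : ∀ (z1 z2 z1' z2' : Z) (a b a' b' : Y), z1 ≠ z2 → z1' ≠ z2' →
      l (z1, a) (z2, b) = l (z1', a') (z2', b') := by
    intro z1 z2 z1' z2' a b a' b' h h'
    rw [← hl, op2_row_diff _ _ _ _ h, op2_row_diff _ _ _ _ h', hY.strong1 _ a a']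
    congr 1
    funext c
    rw [hY.strong1 _ b b']
    congr 1
    funext d
    apply hk1
    · intro e; exact h (congrArg Prod.fst e)
    · intro e; exact h' (congrArg Prod.fst e)
  have hc1 : ∃ c1, ∀ (z : Z) (a b : Y), a ≠ b → l (z, a) (z, b) = c1 := by
    by_cases hex : ∃ (z : Z) (a b : Y), a ≠ b
    · obtain ⟨z, a, b, hab⟩ := hex
      exact ⟨l (z, a) (z, b), fun z' a' b' h' => hl1 _ _ _ _ _ _ h' hab⟩
    · push Not at hex
      exact ⟨0, fun z a b h => absurd (hex z a b) h⟩
  have hc2 : ∃ c2, ∀ (z z' : Z) (a b : Y), z ≠ z' → l (z, a) (z', b) = c2 := by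
    by_cases hex : ∃ (z z' : Z) (a b : Y), z ≠ z'
    · obtain ⟨z, z', a, b, hab⟩ := hex
      exact ⟨l (z, a) (z', b), fun z1 z1' a' b' h' => hl2 _ _ _ _ _ _ _ _ h' hab⟩
    · push Not at hex
      exact ⟨0, fun z z' a b h => absurd (hex z z' a b) h⟩
  obtain ⟨c1, hc1⟩ := hc1
  obtain ⟨c2, hc2⟩ := hc2
  have hfin : ∀ x x' : Z × Y, x ≠ x' → op2 X l x x' = c2 + (c1 - c2) * cX := by
    intro x x' hx
    rw [op2_congr_off X (g := fun x x' => c2 + (c1 - c2) * sameRow x x') ?_ hx]
    · rw [op2_add, op2_const, op2_smul, hX x x' hx]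
    · rintro ⟨z, a⟩ ⟨z', b⟩ hne
      by_cases hz : z = z'
      · subst hz
        rw [hc1 z a b (fun e => hne (by rw [e]))]
        simp [sameRow]
      · rw [hc2 z z' a b hz]
        simp [sameRow, hz]
  rw [hfin _ _ hne, hfin _ _ hne']

open Classical in
/-- the main product step -/
theorem main_step [Fintype IZ] [Fintype IY]
    {AZ : Net Z} {cZ : Z → Z → IZ} {AY : Net Y} {cY : Y → Y → IY}
    (hZ : BF AZ cZ) (hY : BF AY cY)
    {X : Net (Z × Y)} (hXV : Valid X)
    (hX : ∃ c, ∀ x x' : Z × Y, x ≠ x' → op2 X sameRow x x' = c)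
    {MY : Net Y} (hMYV : Valid MY) (hMY : Strong2 MY)
    {MZ : Net Z} (hMZV : Valid MZ) (hMZ : Strong2 MZ) :
    HasStrong (Z × Y) (2 * (Fintype.card Y * AZ.length + Fintype.card Z * AY.length)
      + X.length + Fintype.card Z * MY.length
      + (Fintype.card IZ + Fintype.card IY) ^ 2 * MZ.length) := by
  -- the class structure
  obtain ⟨A, hA⟩ : ∃ A : Net (Z × Y), A = col (fun _ : Y => AZ) ++ row (fun _ : Z => AY) :=
    ⟨_, rfl⟩
  have hBF : BF A (pcls cZ cY) := by rw [hA]; exact hZ.prod hY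
  obtain ⟨R, hR⟩ : ∃ R : Net (Z × Y), R = row (fun _ : Z => MY) := ⟨_, rfl⟩
  obtain ⟨K, hK⟩ : ∃ K : Net (Z × Y), K = col (fun _ : Y => MZ) := ⟨_, rfl⟩
  -- class indicators
  let ind : IZ ⊕ IY → (Z × Y) → (Z × Y) → ℝ := fun β x x' => if pcls cZ cY x x' = β then 1 else 0
  -- representative pairs
  let J : Type := {i : IZ ⊕ IY // ∃ x x' : Z × Y, x ≠ x' ∧ pcls cZ cY x x' = i}
  choose r1 r2 hr using fun i : J => i.2
  -- functional
  let emb : (Y → Z → Z → ℝ) →ₗ[ℝ] (Z × Y → Z × Y → ℝ) :=
    { toFun := fun h x x' => if x.2 = x'.2 then h x.2 x.1 x'.1 else 0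
      map_add' := by
        intro h h'; funext x x'
        simp only [Pi.add_apply]
        split_ifs <;> simp
      map_smul' := by
        intro c h; funext x x'
        simp only [Pi.smul_apply, RingHom.id_apply, smul_eq_mul]
        split_ifs <;> simp }
  let ev : Z × Y → Z × Y → (Z × Y → Z × Y → ℝ) →ₗ[ℝ] ℝ := fun x x' =>
    { toFun := fun f => f x x'
      map_add' := fun _ _ => rfl
      map_smul' := fun _ _ => rfl }
  let Φ : J × (IZ ⊕ IY) → (Y → Z → Z → ℝ) →ₗ[ℝ] ℝ := fun ib =>
    ((ev (r1 ib.1) (r2 ib.1)).comp (op2L (A ++ (X ++ R)))).comp emb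
  have hΦ : ∀ ib h, Φ ib h = op2 (A ++ (X ++ R))
      (fun x x' => if x.2 = x'.2 then h x.2 x.1 x'.1 else 0) (r1 ib.1) (r2 ib.1) :=
    fun ib h => rfl
  let bt : J × (IZ ⊕ IY) → Z → Z → ℝ := fun ib c d => if Sum.inl (cZ c d) = ib.2 then 1 else 0
  obtain ⟨M', hV', hcost, hΦeq⟩ := reduce MZ hMZV Φ bt
  obtain ⟨K', hK'⟩ : ∃ K' : Net (Z × Y), K' = col M' := ⟨_, rfl⟩
  -- the action of a column network on an indicator
  have hcol : ∀ (M : Y → Net Z) (β : IZ ⊕ IY) (x x' : Z × Y),
      op2 (col M) (ind β) x x'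
        = (if x.2 = x'.2 then op2 (M x.2) (fun c d => if Sum.inl (cZ c d) = β then 1 else 0)
            x.1 x'.1 else 0)
          + (if x.2 = x'.2 then 0 else ind β x x') := by
    rintro M β ⟨z, y⟩ ⟨z', y'⟩
    by_cases hy : y = y'
    · subst hy
      rw [op2_col_same]
      simp [ind, pcls]
    · rw [op2_col_diff _ _ _ _ hy]
      simp only [ind, pcls, hy, if_false, zero_add]
      rw [show (fun c : Z => op1 (M y') (fun _ => if (Sum.inr (cY y y') : IZ ⊕ IY) = β
        then (1:ℝ) else 0) z') = fun _ => if (Sum.inr (cY y y') : IZ ⊕ IY) = β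
        then (1:ℝ) else 0 from by funext c; exact op1_const _ _ _, op1_const]
  -- equality of the reduced and the unreduced functional
  have hred : ∀ (i : J) (β : IZ ⊕ IY),
      op2 (A ++ (X ++ R)) (op2 K' (ind β)) (r1 i) (r2 i)
        = op2 (A ++ (X ++ R)) (op2 K (ind β)) (r1 i) (r2 i) := by
    intro i β
    have h1 : op2 K' (ind β) = fun x x' =>
        (if x.2 = x'.2 then op2 (M' x.2) (fun c d => if Sum.inl (cZ c d) = β then 1 else 0)
            x.1 x'.1 else 0) + (if x.2 = x'.2 then 0 else ind β x x') := by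
      funext x x'; rw [hK']; exact hcol M' β x x'
    have h2 : op2 K (ind β) = fun x x' =>
        (if x.2 = x'.2 then op2 MZ (fun c d => if Sum.inl (cZ c d) = β then 1 else 0)
            x.1 x'.1 else 0) + (if x.2 = x'.2 then 0 else ind β x x') := by
      funext x x'; rw [hK]; exact hcol (fun _ => MZ) β x x'
    rw [h1, h2, op2_add, op2_add]
    congr 1
    have h3 := hΦeq (i, β)
    rw [hΦ, hΦ] at h3
    exact h3
  -- the unreduced network is strong
  have hstr : Strong2 (A ++ (X ++ (R ++ K))) := by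
    have h := strong_XRK (Z := Z) (Y := Y) hX hMY hMZ
    rw [← hR, ← hK] at h
    intro f x y x' y' hxy hxy'
    rw [op2_append]
    obtain ⟨c, hc⟩ : ∃ c, ∀ u v : Z × Y, u ≠ v → op2 (X ++ (R ++ K)) f u v = c :=
      ⟨op2 (X ++ (R ++ K)) f x y, fun u v huv => h f u v x y huv hxy⟩
    rw [op2_congr_off A (g := fun _ _ => c) (fun u v huv => hc u v huv) hxy,
      op2_congr_off A (g := fun _ _ => c) (fun u v huv => hc u v huv) hxy', op2_const, op2_const]
  -- so the reduced network is constant on each indicator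
  have hind : ∀ (β : IZ ⊕ IY) (x y x' y' : Z × Y), x ≠ y → x' ≠ y' →
      op2 (A ++ (X ++ R)) (op2 K' (ind β)) x y = op2 (A ++ (X ++ R)) (op2 K' (ind β)) x' y' := by
    intro β x y x' y' hxy hxy'
    have hrep : ∀ x y : Z × Y, x ≠ y → ∃ i : J,
        op2 (A ++ (X ++ R)) (op2 K' (ind β)) x y
          = op2 (A ++ (X ++ R)) (op2 K' (ind β)) (r1 i) (r2 i) := by
      intro x y hxy
      refine ⟨⟨pcls cZ cY x y, x, y, hxy, rfl⟩, ?_⟩
      rw [op2_append]
      exact hBF.cl _ _ _ _ _ hxy (hr ⟨pcls cZ cY x y, x, y, hxy, rfl⟩).1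
        (hr ⟨pcls cZ cY x y, x, y, hxy, rfl⟩).2.symm
    obtain ⟨i, hi⟩ := hrep x y hxy
    obtain ⟨j, hj⟩ := hrep x' y' hxy'
    rw [hi, hj, hred, hred, ← op2_append, List.append_assoc, List.append_assoc]
    exact hstr _ _ _ _ _ (hr i).1 (hr j).1
  -- the total network
  apply HasStrong.of_cost (A ++ ((X ++ R) ++ (K' ++ A)))
  · have hRV : Valid R := by rw [hR]; exact row_valid fun _ => hMYV
    have hKV : Valid K' := by rw [hK']; exact col_valid hV'
    exact hBF.valid.append ((hXV.append hRV).append (hKV.append hBF.valid))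
  · have e1 : cost A ≤ Fintype.card Y * AZ.length + Fintype.card Z * AY.length := by
      rw [hA, cost_append, col, row, par_cost, par_cost]
      simp only [Finset.sum_const, Finset.card_univ, smul_eq_mul]
      exact Nat.add_le_add (Nat.mul_le_mul_left _ (cost_le_length _))
        (Nat.mul_le_mul_left _ (cost_le_length _))
    have e2 : cost X ≤ X.length := cost_le_length _
    have e3 : cost R ≤ Fintype.card Z * MY.length := by
      rw [hR, row, par_cost]
      simp only [Finset.sum_const, Finset.card_univ, smul_eq_mul]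
      exact Nat.mul_le_mul_left _ (cost_le_length _)
    have e4 : cost K' ≤ (Fintype.card IZ + Fintype.card IY) ^ 2 * MZ.length := by
      rw [hK', col, par_cost]
      refine hcost.trans (Nat.mul_le_mul_right _ ?_)
      rw [Fintype.card_prod, Fintype.card_sum, pow_two]
      refine Nat.mul_le_mul_right _ ?_
      calc Fintype.card J ≤ Fintype.card (IZ ⊕ IY) := Fintype.card_subtype_le _
        _ = _ := Fintype.card_sum
    rw [cost_append, cost_append, cost_append, cost_append]
    omega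
  · intro f x y x' y' hxy hxy'
    -- decompose op2 A f in indicators
    have hdec : ∃ c : IZ ⊕ IY → ℝ, ∀ u v : Z × Y, u ≠ v →
        op2 A f u v = ∑ β, c β * ind β u v := by
      refine ⟨fun β => if h : ∃ u v : Z × Y, u ≠ v ∧ pcls cZ cY u v = β then
        op2 A f h.choose h.choose_spec.choose else 0, ?_⟩
      intro u v huv
      rw [Finset.sum_eq_single (pcls cZ cY u v)]
      · have hex : ∃ u' v' : Z × Y, u' ≠ v' ∧ pcls cZ cY u' v' = pcls cZ cY u v :=
          ⟨u, v, huv, rfl⟩
        simp only [ind, if_true, mul_one]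
        rw [dif_pos hex]
        exact hBF.cl _ _ _ _ _ huv hex.choose_spec.choose_spec.1
          hex.choose_spec.choose_spec.2.symm
      · intro β _ hβ
        simp [ind, Ne.symm hβ]
      · intro h; exact absurd (Finset.mem_univ _) h
    obtain ⟨c, hc⟩ := hdec
    have htot : ∀ u v : Z × Y, u ≠ v → op2 (A ++ ((X ++ R) ++ (K' ++ A))) f u v
        = ∑ β, c β * op2 (A ++ (X ++ R)) (op2 K' (ind β)) u v := by
      intro u v huv
      have e : A ++ ((X ++ R) ++ (K' ++ A)) = ((A ++ (X ++ R)) ++ K') ++ A := by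
        simp [List.append_assoc]
      rw [e, op2_append, op2_congr_off _ hc huv, op2_sum]
      refine Finset.sum_congr rfl fun β _ => ?_
      rw [op2_smul, op2_append]
    rw [htot _ _ hxy, htot _ _ hxy']
    refine Finset.sum_congr rfl fun β _ => ?_
    rw [hind β _ _ _ _ hxy hxy']

end prod

end Pool.Agent.Lib.MP_2f8515_co
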