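import Pool.Agent.Lib.MP_2f8515_co.Pow

/-!
# Sum formulas for strong networks, deterministic networks
-/

set_option linter.unusedSectionVars false

namespace Pool.Agent.Lib.MP_2f8515_co

open Equiv

section sums
variable {α : Type} [DecidableEq α] [Fintype α]

lemma sum_op1 (L : Net α) (g : α → ℝ) : ∑ x, op1 L g x = ∑ x, g x := by
  induction L with
  | nil => rfl
  | cons e L ih =>
    simp only [op1_cons]
    rw [Finset.sum_add_distrib, ← Finset.mul_sum, ← Finset.mul_sum,
      Equiv.sum_comp (swap e.1 e.2.1) (fun x => op1 L g x), ih]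
    ring

lemma sum_op2 (L : Net α) (f : α → α → ℝ) : ∑ x, ∑ y, op2 L f x y = ∑ x, ∑ y, f x y := by
  induction L with
  | nil => rfl
  | cons e L ih =>
    simp only [op2_cons]
    have h1 : ∀ x, ∑ y, ((1 - e.2.2) * op2 L f x y
        + e.2.2 * op2 L f (swap e.1 e.2.1 x) (swap e.1 e.2.1 y))
        = (1 - e.2.2) * ∑ y, op2 L f x y + e.2.2 * ∑ y, op2 L f (swap e.1 e.2.1 x) y := by
      intro x
      rw [Finset.sum_add_distrib, ← Finset.mul_sum, ← Finset.mul_sum,
        Equiv.sum_comp (swap e.1 e.2.1) (fun y => op2 L f (swap e.1 e.2.1 x) y)]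
    simp only [h1]
    rw [Finset.sum_add_distrib, ← Finset.mul_sum, ← Finset.mul_sum,
      Equiv.sum_comp (swap e.1 e.2.1) (fun x => ∑ y, op2 L f x y), ih]
    ring

omit [Fintype α] in
lemma op2_diag (L : Net α) (f : α → α → ℝ) (x : α) : op2 L f x x = op1 L (fun z => f z z) x := by
  induction L generalizing x with
  | nil => rfl
  | cons e L ih => simp only [op2_cons, op1_cons, ih]

/-- off-diagonal part -/
def off (f : α → α → ℝ) : α → α → ℝ := fun x y => if x = y then 0 else f x y

omit [Fintype α] in
lemma op2_off (L : Net α) (f : α → α → ℝ) (x y : α) :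
    op2 L (off f) x y = if x = y then 0 else op2 L f x y := by
  split_ifs with h
  · subst h
    rw [op2_diag]
    simp only [off, if_true]
    exact op1_const _ _ _
  · apply op2_congr_off _ _ h
    intro x y hxy
    simp [off, hxy]

lemma strong1_eq {L : Net α} (h : Strong1 L) (g : α → ℝ) (x : α) :
    op1 L g x = (∑ y, g y) / (Fintype.card α) := by
  have h1 : ∑ y, op1 L g y = (Fintype.card α) * op1 L g x := by
    rw [Finset.sum_congr rfl (fun y _ => h g y x), Finset.sum_const, Finset.card_univ,
      nsmul_eq_mul]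
  rw [sum_op1] at h1
  have hc : (Fintype.card α : ℝ) ≠ 0 := by
    have : 0 < Fintype.card α := Fintype.card_pos_iff.2 ⟨x⟩
    positivity
  rw [h1]; field_simp

lemma strong2_eq {L : Net α} (h : Strong2 L) (f : α → α → ℝ) {x y : α} (hxy : x ≠ y) :
    op2 L f x y = (∑ u, ∑ v, off f u v) / ((Fintype.card α) * ((Fintype.card α) - 1)) := by
  have h1 : ∑ u, ∑ v, op2 L (off f) u v = (Fintype.card α) * ((Fintype.card α) - 1)
      * op2 L f x y := by
    have h2 : ∀ u v, op2 L (off f) u v = op2 L f x y - if u = v then op2 L f x y else 0 := by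
      intro u v
      rw [op2_off]
      split_ifs with huv
      · ring
      · rw [h f u v x y huv hxy]; ring
    simp only [h2, Finset.sum_sub_distrib, Finset.sum_const, Finset.card_univ, nsmul_eq_mul,
      Finset.sum_ite_eq, Finset.mem_univ, if_true]
    ring
  rw [sum_op2] at h1
  have hc : (1 : ℝ) < Fintype.card α := by
    have : 1 < Fintype.card α := Fintype.one_lt_card_iff.2 ⟨x, y, hxy⟩
    exact_mod_cast this
  have hc1 : (Fintype.card α : ℝ) ≠ 0 := by linarith
  have hc2 : (Fintype.card α : ℝ) - 1 ≠ 0 := by linarith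
  rw [h1]; field_simp

end sums

section det
variable {α : Type} [DecidableEq α] [Finite α]

/-- every permutation is realised by a network without random entries -/
lemma exists_det (ρ : Perm α) : ∃ D : Net α, Valid D ∧ cost D = 0 ∧
    (∀ f x y, op2 D f x y = f (ρ x) (ρ y)) ∧ (∀ g x, op1 D g x = g (ρ x)) := by
  induction ρ using Equiv.Perm.swap_induction_on with
  | one => exact ⟨[], valid_nil, rfl, fun _ _ _ => rfl, fun _ _ => rfl⟩
  | swap_mul ρ a b hab ih =>
    obtain ⟨D, hV, hc, h2, h1⟩ := ih
    refine ⟨D ++ [(a, b, 1)], hV.append ?_, ?_, ?_, ?_⟩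
    · intro e he
      rw [List.mem_singleton] at he
      subst he
      exact ⟨hab, by norm_num, by norm_num⟩
    · rw [cost_append, hc, cost_cons_det _ (Or.inr rfl), cost_nil]
    · intro f x y
      rw [op2_append, h2]
      simp [op2]
    · intro g x
      rw [op1_append, h1]
      simp [op1]

end det

end Pool.Agent.Lib.MP_2f8515_co
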